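import Pool.Agent.P.MP_a54059_lc.PT.LO

/-!
One step of anti-concentration, and its iteration along a long list (paper, section AC).
Pair weight `mu i a b = rho / |A| * ker a b + (P i a - rho / |A|) * [a = b]`: symmetric,
nonnegative, first marginal `P i`.  Swapping the two configurations on a set `S` of parts preserves
the product weight.  Average over `S` and use `lo_phi`; the number `e` of parts with a changed value
of `l j` has `E exp (-e) ≤ exp (-rho N / 2)`.
-/

namespace Pool.Agent.P.MP_a54059_lc.PT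

open Finset
open scoped BigOperators Classical

variable {J ι A : Type} [Fintype ι] [DecidableEq ι] [Fintype A] [DecidableEq A] [Nonempty A]

/-- The pair weight. -/
noncomputable def AC_mu (l : J → ι → A → ℤ) (T : List J) (rho : ℝ) (P : ι → A → ℝ) (i : ι)
    (p : A × A) : ℝ :=
  rho / Fintype.card A * ker l T i p.1 p.2 +
    (P i p.1 - rho / Fintype.card A) * (if p.1 = p.2 then 1 else 0)

/-- The indicator of a changed value. -/
noncomputable def AC_ind (l : J → ι → A → ℤ) (j : J) (i : ι) (p : A × A) : ℝ :=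
  if l j i p.2 = l j i p.1 then 0 else 1

/-- Swap the two configurations on `S`. -/
def AC_sw (S : Finset ι) (w : ι → A × A) : ι → A × A :=
  fun i => if i ∈ S then (w i).swap else w i

omit [Fintype ι] [Fintype A] [DecidableEq A] [Nonempty A] in
theorem AC_sw_sw (S : Finset ι) (w : ι → A × A) : AC_sw S (AC_sw S w) = w := by
  funext i
  by_cases h : i ∈ S <;> simp [AC_sw, h]

theorem AC_mu_swap (l : J → ι → A → ℤ) (T : List J) (rho : ℝ) (P : ι → A → ℝ) (i : ι)
    (p : A × A) : AC_mu l T rho P i p.swap = AC_mu l T rho P i p := by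
  obtain ⟨a, b⟩ := p
  simp only [AC_mu, Prod.swap_prod_mk]
  rw [ker_symm l T i b a]
  by_cases h : a = b
  · subst h
    rfl
  · rw [if_neg h, if_neg (Ne.symm h), mul_zero, mul_zero]

theorem AC_mu_nonneg (l : J → ι → A → ℤ) (T : List J) {rho : ℝ} (hrho : 0 < rho)
    {P : ι → A → ℝ} (hP : ∀ i a, rho / Fintype.card A ≤ P i a) (i : ι) (p : A × A) :
    0 ≤ AC_mu l T rho P i p := by
  refine add_nonneg (mul_nonneg (by positivity) (ker_nonneg l T i _ _))
    (mul_nonneg (sub_nonneg.2 (hP i _)) ?_)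
  split_ifs <;> norm_num

theorem AC_mu_sum (l : J → ι → A → ℤ) (T : List J) (rho : ℝ) (P : ι → A → ℝ) (i : ι) (a : A) :
    ∑ b, AC_mu l T rho P i (a, b) = P i a := by
  simp only [AC_mu]
  rw [Finset.sum_add_distrib, ← Finset.mul_sum, ← Finset.mul_sum, ker_sum, Finset.sum_ite_eq,
    if_pos (Finset.mem_univ a)]
  ring

theorem AC_mu_supp (l : J → ι → A → ℤ) (T : List J) (rho : ℝ) (P : ι → A → ℝ) (i : ι)
    (p : A × A) (h : AC_mu l T rho P i p ≠ 0) : ∀ j ∈ T, l j i p.2 = l j i p.1 := by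
  by_cases h1 : p.1 = p.2
  · intro j _
    rw [h1]
  · refine ker_ne_zero l T i fun h2 => h ?_
    rw [AC_mu, h2, if_neg h1, mul_zero, mul_zero, add_zero]

theorem AC_marg (l : J → ι → A → ℤ) (T : List J) (rho : ℝ) (P : ι → A → ℝ)
    (F : (ι → A) → ℝ) :
    ∑ w : ι → A × A, (∏ i, AC_mu l T rho P i (w i)) * F (fun i => (w i).1) =
      ∑ y : ι → A, (∏ i, P i (y i)) * F y := by
  rw [← (Equiv.arrowProdEquivProdArrow ι (fun _ => A) (fun _ => A)).symm.sum_comp,
    Fintype.sum_prod_type]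
  refine Finset.sum_congr rfl fun y _ => ?_
  have h : ∏ i, P i (y i) = ∑ z : ι → A, ∏ i, AC_mu l T rho P i (y i, z i) := by
    simp only [← AC_mu_sum l T rho P]
    rw [Finset.prod_univ_sum, Fintype.piFinset_univ]
  rw [h, Finset.sum_mul]
  rfl

theorem AC_swap (l : J → ι → A → ℤ) (T : List J) (rho : ℝ) (P : ι → A → ℝ) (S : Finset ι)
    (F : (ι → A × A) → ℝ) :
    ∑ w : ι → A × A, (∏ i, AC_mu l T rho P i (w i)) * F w =
      ∑ w : ι → A × A, (∏ i, AC_mu l T rho P i (w i)) * F (AC_sw S w) := by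
  rw [← Equiv.sum_comp (Function.Involutive.toPerm (AC_sw S) (AC_sw_sw S))]
  refine Finset.sum_congr rfl fun w _ => ?_
  simp only [Function.Involutive.coe_toPerm]
  congr 1
  refine Finset.prod_congr rfl fun i _ => ?_
  by_cases h : i ∈ S
  · simp only [AC_sw, if_pos h, AC_mu_swap]
  · simp only [AC_sw, if_neg h]

omit [Fintype A] [DecidableEq A] [Nonempty A] in
theorem AC_L_sw (l : J → ι → A → ℤ) (j : J) (t : ℤ) (S : Finset ι) (w : ι → A × A) :
    t - L l j (fun i => (AC_sw S w i).1) =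
      (t - L l j fun i => (w i).1) + ∑ i ∈ S, (l j i (w i).1 - l j i (w i).2) := by
  have h : ∑ i ∈ S, (l j i (w i).1 - l j i (w i).2) =
      ∑ i, (l j i (w i).1 - l j i (AC_sw S w i).1) := by
    rw [← Finset.sum_subset (Finset.subset_univ S)]
    · refine Finset.sum_congr rfl fun i hi => ?_
      simp only [AC_sw, if_pos hi, Prod.fst_swap]
    · intro i _ hi
      simp only [AC_sw, if_neg hi, sub_self]
  rw [h, Finset.sum_sub_distrib]
  simp only [L]
  ring

theorem AC_one (l : J → ι → A → ℤ) (T : List J) (j : J) (rho : ℝ) (P : ι → A → ℝ)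
    (hP1 : ∀ i, ∑ a, P i a = 1) (i : ι) :
    ∑ p : A × A, AC_mu l T rho P i p * (1 - AC_ind l j i p / 2) =
      1 - rho / 2 * 𝔼 a, dis l T j i a := by
  have h1 : ∑ p : A × A, AC_mu l T rho P i p = 1 := by
    rw [Fintype.sum_prod_type]
    simp only [AC_mu_sum]
    exact hP1 i
  have h2 : ∑ p : A × A, AC_mu l T rho P i p * AC_ind l j i p = rho * 𝔼 a, dis l T j i a := by
    rw [Fintype.sum_prod_type, Finset.expect_eq_sum_div_card, Finset.card_univ, mul_div_assoc',
      mul_div_right_comm, Finset.mul_sum]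
    refine Finset.sum_congr rfl fun a _ => ?_
    rw [dis, Finset.mul_sum]
    refine Finset.sum_congr rfl fun b _ => ?_
    simp only [AC_mu, AC_ind]
    by_cases h : a = b
    · subst h
      simp
    · rw [if_neg h]
      ring
  have h3 : ∀ p : A × A, AC_mu l T rho P i p * (1 - AC_ind l j i p / 2) =
      AC_mu l T rho P i p - 1 / 2 * (AC_mu l T rho P i p * AC_ind l j i p) := fun p => by ring
  simp only [h3]
  rw [Finset.sum_sub_distrib, ← Finset.mul_sum, h1, h2]
  ring

omit [Fintype ι] [DecidableEq ι] [Fintype A] [DecidableEq A] [Nonempty A] in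
theorem AC_half (l : J → ι → A → ℤ) (j : J) (i : ι) (p : A × A) : 0 ≤ 1 - AC_ind l j i p / 2 := by
  unfold AC_ind
  split_ifs <;> norm_num

omit [Fintype ι] [DecidableEq ι] [Fintype A] [DecidableEq A] [Nonempty A] in
theorem AC_exp_ind (l : J → ι → A → ℤ) (j : J) (i : ι) (p : A × A) :
    Real.exp (-AC_ind l j i p) ≤ 1 - AC_ind l j i p / 2 := by
  unfold AC_ind
  split_ifs
  · simp
  · have h := Real.add_one_le_exp (1 : ℝ)
    rw [Real.exp_neg, inv_le_comm₀ (Real.exp_pos 1) (by norm_num)]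
    linarith

theorem AC_tail (l : J → ι → A → ℤ) (T : List J) (j : J) {rho N : ℝ} (hrho : 0 < rho)
    (hlong : N ≤ Nn l T j) {P : ι → A → ℝ} (hP : ∀ i a, rho / Fintype.card A ≤ P i a)
    (hP1 : ∀ i, ∑ a, P i a = 1) :
    ∑ w : ι → A × A, (∏ i, AC_mu l T rho P i (w i)) * ∏ i, (1 - AC_ind l j i (w i) / 2) ≤
      Real.exp (-(rho * N / 2)) := by
  have h1 : ∑ w : ι → A × A, (∏ i, AC_mu l T rho P i (w i)) * ∏ i, (1 - AC_ind l j i (w i) / 2) =
      ∏ i, ∑ p : A × A, AC_mu l T rho P i p * (1 - AC_ind l j i p / 2) := by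
    rw [Finset.prod_univ_sum, Fintype.piFinset_univ]
    simp only [Finset.prod_mul_distrib]
  rw [h1]
  calc ∏ i, ∑ p : A × A, AC_mu l T rho P i p * (1 - AC_ind l j i p / 2)
      ≤ ∏ i, Real.exp (-(rho / 2 * 𝔼 a, dis l T j i a)) := by
        refine Finset.prod_le_prod (fun i _ => Finset.sum_nonneg fun p _ =>
          mul_nonneg (AC_mu_nonneg l T hrho hP i p) (AC_half l j i p)) fun i _ => ?_
        rw [AC_one l T j rho P hP1]
        have h := Real.add_one_le_exp (-(rho / 2 * 𝔼 a, dis l T j i a))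
        linarith
    _ = Real.exp (-(rho / 2 * Nn l T j)) := by
        rw [← Real.exp_sum, Finset.sum_neg_distrib, ← Finset.mul_sum, Nn]
    _ ≤ _ := by
        refine Real.exp_le_exp.2 ?_
        nlinarith

omit [Fintype A] [DecidableEq A] [Nonempty A] in
theorem AC_point (l : J → ι → A → ℤ) (j : J) (c : ℤ) {lam x g : ℝ} (h0 : 0 < lam) (h1 : lam ≤ 1)
    (hx : 0 < x) (hg0 : 0 ≤ g) (hg1 : g ≤ 1) (w : ι → A × A) :
    g * 𝔼 S : Finset ι, phi lam (c + ∑ i ∈ S, (l j i (w i).1 - l j i (w i).2)) ≤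
      (2 / lam) / √x * g + Real.exp x * ∏ i, (1 - AC_ind l j i (w i) / 2) := by
  have hgam : 0 ≤ (2 / lam) / √x := by positivity
  have hpr : 0 ≤ ∏ i, (1 - AC_ind l j i (w i) / 2) :=
    Finset.prod_nonneg fun i _ => AC_half l j i (w i)
  have he : ((univ.filter fun i => l j i (w i).1 - l j i (w i).2 ≠ 0).card : ℝ) =
      ∑ i, AC_ind l j i (w i) := by
    rw [Finset.card_filter, Nat.cast_sum]
    refine Finset.sum_congr rfl fun i _ => ?_
    unfold AC_ind
    by_cases h : l j i (w i).2 = l j i (w i).1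
    · rw [if_pos h, if_neg (by rw [h, sub_self]; exact fun h' => h' rfl), Nat.cast_zero]
    · rw [if_neg h, if_pos (sub_ne_zero.2 (Ne.symm h)), Nat.cast_one]
  by_cases hc : x ≤ ∑ i, AC_ind l j i (w i)
  · have h := lo_phi (fun i => l j i (w i).1 - l j i (w i).2) c lam h0 h1
    rw [he] at h
    have h2 : (2 / lam) / √(∑ i, AC_ind l j i (w i) + 1) ≤ (2 / lam) / √x :=
      div_le_div_of_nonneg_left (by positivity) (Real.sqrt_pos.2 hx)
        (Real.sqrt_le_sqrt (by linarith))
    have h3 := mul_le_mul_of_nonneg_left (h.trans h2) hg0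
    have h4 := mul_nonneg (Real.exp_pos x).le hpr
    linarith
  · have h2 : 𝔼 S : Finset ι, phi lam (c + ∑ i ∈ S, (l j i (w i).1 - l j i (w i).2)) ≤ 1 :=
      Finset.expect_le Finset.univ_nonempty fun S _ => phi_le_one h0.le _
    have h3 : Real.exp (-∑ i, AC_ind l j i (w i)) ≤ ∏ i, (1 - AC_ind l j i (w i) / 2) := by
      rw [← Finset.sum_neg_distrib, Real.exp_sum]
      exact Finset.prod_le_prod (fun i _ => (Real.exp_pos _).le) fun i _ => AC_exp_ind l j i (w i)
    have h4 : 1 ≤ Real.exp x * Real.exp (-∑ i, AC_ind l j i (w i)) := by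
      rw [← Real.exp_add]
      exact Real.one_le_exp (by linarith [not_le.1 hc])
    have h5 := mul_le_mul_of_nonneg_left h3 (Real.exp_pos x).le
    have h6 := mul_le_mul_of_nonneg_left h2 hg0
    have h7 := mul_nonneg hgam hg0
    linarith

theorem ac_step (l : J → ι → A → ℤ) (T : List J) (j : J) (t : ℤ) (lam rho N : ℝ)
    (h0 : 0 < lam) (h1 : lam ≤ 1) (hrho : 0 < rho) (hN : 0 < N) (hlong : N ≤ Nn l T j)
    (P : ι → A → ℝ) (hP : ∀ i a, rho / Fintype.card A ≤ P i a) (hP1 : ∀ i, ∑ a, P i a = 1)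
    (G : (ι → A) → ℝ) (hG0 : ∀ y, 0 ≤ G y) (hG1 : ∀ y, G y ≤ 1)
    (hG : ∀ y y' : ι → A, (∀ i, ∀ j' ∈ T, l j' i (y' i) = l j' i (y i)) → G y' = G y) :
    ∑ y : ι → A, (∏ i, P i (y i)) * (G y * phi lam (t - L l j y)) ≤
      (2 / lam) / √(rho * N / 4) * ∑ y : ι → A, (∏ i, P i (y i)) * G y +
        Real.exp (-(rho * N / 4)) := by
  have hF : ∀ S : Finset ι,
      ∑ y : ι → A, (∏ i, P i (y i)) * (G y * phi lam (t - L l j y)) =
      ∑ w : ι → A × A, (∏ i, AC_mu l T rho P i (w i)) * (G (fun i => (w i).1) *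
        phi lam ((t - L l j fun i => (w i).1) + ∑ i ∈ S, (l j i (w i).1 - l j i (w i).2))) := by
    intro S
    rw [← AC_marg l T rho P fun y => G y * phi lam (t - L l j y),
      AC_swap l T rho P S fun w => G (fun i => (w i).1) * phi lam (t - L l j fun i => (w i).1)]
    refine Finset.sum_congr rfl fun w _ => ?_
    by_cases hw : ∏ i, AC_mu l T rho P i (w i) = 0
    · rw [hw, zero_mul, zero_mul]
    · have h2 : G (fun i => (AC_sw S w i).1) = G fun i => (w i).1 := by
        refine hG _ _ fun i j' hj' => ?_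
        have h3 := AC_mu_supp l T rho P i (w i)
          (Finset.prod_ne_zero_iff.1 hw i (Finset.mem_univ i)) j' hj'
        by_cases hi : i ∈ S
        · simp only [AC_sw, if_pos hi, Prod.fst_swap, h3]
        · simp only [AC_sw, if_neg hi]
      rw [h2, AC_L_sw]
  have hE : ∑ y : ι → A, (∏ i, P i (y i)) * (G y * phi lam (t - L l j y)) =
      ∑ w : ι → A × A, (∏ i, AC_mu l T rho P i (w i)) * (G (fun i => (w i).1) *
        𝔼 S : Finset ι, phi lam ((t - L l j fun i => (w i).1) +
          ∑ i ∈ S, (l j i (w i).1 - l j i (w i).2))) := by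
    simp only [Finset.mul_expect]
    rw [← Finset.expect_sum_comm, ← Finset.expect_congr rfl fun S _ => hF S,
      Finset.expect_const Finset.univ_nonempty]
  have hx : 0 < rho * N / 4 := by positivity
  have ht := AC_tail l T j hrho hlong hP hP1
  have hexp : Real.exp (rho * N / 4) * Real.exp (-(rho * N / 2)) = Real.exp (-(rho * N / 4)) := by
    rw [← Real.exp_add]
    congr 1
    ring
  rw [hE, ← AC_marg l T rho P G, ← hexp]
  refine le_trans (Finset.sum_le_sum fun w _ => mul_le_mul_of_nonneg_left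
    (AC_point l j _ h0 h1 hx (hG0 _) (hG1 _) w)
    (Finset.prod_nonneg fun i _ => AC_mu_nonneg l T hrho hP i (w i))) ?_
  refine le_trans (le_of_eq ?_)
    (add_le_add le_rfl (mul_le_mul_of_nonneg_left ht (Real.exp_pos _).le))
  rw [Finset.mul_sum, Finset.mul_sum, ← Finset.sum_add_distrib]
  refine Finset.sum_congr rfl fun w _ => ?_
  ring

theorem ac_all (l : J → ι → A → ℤ) (t : J → ℤ) (lam rho N : ℝ)
    (h0 : 0 < lam) (h1 : lam ≤ 1) (hrho : 0 < rho) (hN : 0 < N)
    (hgam : (2 / lam) / √(rho * N / 4) ≤ 1)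
    (P : ι → A → ℝ) (hP : ∀ i a, rho / Fintype.card A ≤ P i a) (hP1 : ∀ i, ∑ a, P i a = 1)
    (T : List J) (hT : Long l N T) :
    ∑ y : ι → A, (∏ i, P i (y i)) * (T.map fun j => phi lam (t j - L l j y)).prod ≤
      ((2 / lam) / √(rho * N / 4)) ^ T.length + T.length * Real.exp (-(rho * N / 4)) := by
  induction T with
  | nil =>
    have h : ∑ y : ι → A, ∏ i, P i (y i) = 1 := by
      rw [← Fintype.piFinset_univ, ← Finset.prod_univ_sum]
      simp only [hP1, Finset.prod_const_one]
    simp [h]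
  | cons j T ih =>
    have h2 := ih hT.1
    have hG0 : ∀ (T : List J) (y : ι → A),
        0 ≤ (T.map fun j => phi lam (t j - L l j y)).prod ∧
          (T.map fun j => phi lam (t j - L l j y)).prod ≤ 1 := by
      intro T y
      induction T with
      | nil => simp
      | cons j T ih =>
        rw [List.map_cons, List.prod_cons]
        exact ⟨mul_nonneg (phi_nonneg _ _) ih.1,
          mul_le_one₀ (phi_le_one h0.le _) ih.1 ih.2⟩
    have h3 := ac_step l T j (t j) lam rho N h0 h1 hrho hN hT.2 P hP hP1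
      (fun y => (T.map fun j => phi lam (t j - L l j y)).prod) (fun y => (hG0 T y).1)
      (fun y => (hG0 T y).2) fun y y' h => by
        congr 1
        refine List.map_congr_left fun j' hj' => ?_
        have h4 : L l j' y' = L l j' y := Finset.sum_congr rfl fun i _ => h i j' hj'
        rw [h4]
    have hg0 : 0 ≤ (2 / lam) / √(rho * N / 4) := by positivity
    have h5 := mul_le_mul_of_nonneg_left h2 hg0
    have h6 : 0 ≤ (T.length : ℝ) * Real.exp (-(rho * N / 4)) := by positivity
    have h7 := mul_le_mul_of_nonneg_right hgam h6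
    simp only [List.map_cons, List.prod_cons, List.length_cons, Nat.cast_succ, pow_succ]
    simp only [mul_comm (phi lam (t j - L l j _))]
    nlinarith

end Pool.Agent.P.MP_a54059_lc.PT
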