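import Pool.Agent.P.MP_a54059_lc.PT.Tilt

/-!
The argmax lemma (paper, section NhCore).  For `y` in `B`,
`1 = ∑ y', ∏ i, kt r (th y i) (y' i) (y i) / ∏ i, Zt r (th y i) (y i)` (`Finset.prod_univ_sum`).
Exchange the sums.  For fixed `y'` let `y0` maximise over `B` the weight
`w y = exp (∑ th y i (y' i) - ∑ th y i (y i)) / (∏ Zm r (th y i) (y' i) * ∏ Zt r (th y i) (y i))`.
Then `(∏ i, lz r (y' i) (y i)) * w y ≤ exp 3 * (∏ i, kt r (th y0 i) (y' i) (y i)) * pen y0 y` for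
`y` in `B`; sum over `y` with `hac` for `P i a = kt r (th y0 i) (y' i) a`.
-/

namespace Pool.Agent.P.MP_a54059_lc.PT

open Finset
open scoped BigOperators Classical

variable {J ι A : Type} [Fintype ι] [DecidableEq ι] [Fintype A] [DecidableEq A] [Nonempty A]

omit [DecidableEq ι] [Nonempty A] in
theorem Arg_lz_nonneg {r : ℝ} (h0 : 0 ≤ r) (h1 : r ≤ 1 / 24) (a b : A) : 0 ≤ lz r a b := by
  unfold lz
  have h2 : 0 ≤ r / (Fintype.card A : ℝ) := by positivity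
  split_ifs
  · linarith
  · linarith

omit [DecidableEq ι] [Nonempty A] in
theorem Arg_prod_kt (r : ℝ) (t : ι → A → ℝ) (y' y : ι → A) :
    ∏ i, kt r (t i) (y' i) (y i) =
      (∏ i, lz r (y' i) (y i)) *
        (Real.exp (∑ i, t i (y' i)) * Real.exp (-(∑ i, t i (y i)))) /
        ∏ i, Zm r (t i) (y' i) := by
  unfold kt
  rw [Finset.prod_div_distrib, Finset.prod_mul_distrib, ← Real.exp_sum, ← Real.exp_add,
    Finset.sum_sub_distrib, sub_eq_add_neg]

omit [Nonempty A] in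
theorem Arg_sum_kt (r : ℝ) (t : ι → A → ℝ) (y : ι → A) :
    ∑ y' : ι → A, ∏ i, kt r (t i) (y' i) (y i) = ∏ i, Zt r (t i) (y i) := by
  unfold Zt
  rw [Finset.prod_univ_sum, Fintype.piFinset_univ]

theorem Arg_fixed {r : ℝ} (h0 : 0 ≤ r) (h1 : r ≤ 1 / 24) (B : (ι → A) → Prop)
    (th : (ι → A) → ι → A → ℝ) (pen : (ι → A) → (ι → A) → ℝ) (Gam : ℝ) (hGam : 0 ≤ Gam)
    (hth : ∀ y, B y → ∀ i a b, |th y i a - th y i b| ≤ 1)
    (hpen : ∀ y0 y, 0 ≤ pen y0 y)
    (hZ : ∀ y, B y → Real.exp (-2) ≤ ∏ i, Zt r (th y i) (y i))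
    (hcvx : ∀ y0 y, B y0 → B y → Real.exp (-(∑ i, th y0 i (y0 i))) ≤
      Real.exp 1 * Real.exp (-(∑ i, th y0 i (y i))) * pen y0 y)
    (hac : ∀ y0, B y0 → ∀ P : ι → A → ℝ, (∀ i a, r / 6 / Fintype.card A ≤ P i a) →
      (∀ i, ∑ a, P i a = 1) → ∑ y : ι → A, (∏ i, P i (y i)) * pen y0 y ≤ Gam)
    (y' : ι → A) :
    ∑ y ∈ Finset.univ.filter B,
      (∏ i, kt r (th y i) (y' i) (y i)) / ∏ i, Zt r (th y i) (y i) ≤ Real.exp 3 * Gam := by
  rcases (Finset.univ.filter B).eq_empty_or_nonempty with hE | hE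
  · rw [hE, Finset.sum_empty]
    positivity
  obtain ⟨y0, hy0, hmax⟩ := Finset.exists_max_image (Finset.univ.filter B)
    (fun y => Real.exp (∑ i, th y i (y' i)) * Real.exp (-(∑ i, th y i (y i))) /
      (∏ i, Zm r (th y i) (y' i)) / ∏ i, Zt r (th y i) (y i)) hE
  have hB0 : B y0 := (Finset.mem_filter.1 hy0).2
  have hZm0 : 0 < ∏ i, Zm r (th y0 i) (y' i) :=
    Finset.prod_pos fun i _ => Zm_pos h0 h1 _ _
  have hZ0 := hZ y0 hB0
  have hZ0pos : 0 < ∏ i, Zt r (th y0 i) (y0 i) := lt_of_lt_of_le (Real.exp_pos _) hZ0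
  have hterm : ∀ y ∈ Finset.univ.filter B,
      (∏ i, kt r (th y i) (y' i) (y i)) / ∏ i, Zt r (th y i) (y i) ≤
        Real.exp 3 * ((∏ i, kt r (th y0 i) (y' i) (y i)) * pen y0 y) := by
    intro y hy
    have hB : B y := (Finset.mem_filter.1 hy).2
    have hm := hmax y hy
    have hL : 0 ≤ ∏ i, lz r (y' i) (y i) :=
      Finset.prod_nonneg fun i _ => Arg_lz_nonneg h0 h1 _ _
    have hc := hcvx y0 y hB0 hB
    have hp := hpen y0 y
    rw [Arg_prod_kt, Arg_prod_kt]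
    set L := ∏ i, lz r (y' i) (y i) with hLdef
    set E0 := Real.exp (∑ i, th y0 i (y' i)) with hE0
    set F0 := Real.exp (-(∑ i, th y0 i (y0 i))) with hF0
    set G0 := Real.exp (-(∑ i, th y0 i (y i))) with hG0
    set M0 := ∏ i, Zm r (th y0 i) (y' i) with hM0
    set T0 := ∏ i, Zt r (th y0 i) (y0 i) with hT0
    have hE0p : 0 < E0 := Real.exp_pos _
    have hG0p : 0 < G0 := Real.exp_pos _
    have hinv : 1 / T0 ≤ Real.exp 2 := by
      rw [div_le_iff₀ hZ0pos]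
      have h3 : Real.exp 2 * Real.exp (-2) = 1 := by
        rw [← Real.exp_add]; simp
      have h4 : Real.exp 2 * Real.exp (-2) ≤ Real.exp 2 * T0 :=
        mul_le_mul_of_nonneg_left hZ0 (Real.exp_pos _).le
      linarith
    have h5 : E0 * F0 / M0 / T0 ≤ Real.exp 3 * (E0 * G0 / M0 * pen y0 y) := by
      have h6 : E0 * F0 / M0 / T0 = E0 / M0 * F0 * (1 / T0) := by ring
      have h7 : Real.exp 3 = Real.exp 1 * Real.exp 2 := by
        rw [← Real.exp_add]; norm_num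
      have h8 : 0 ≤ E0 / M0 := by positivity
      have h9 : E0 / M0 * F0 ≤ E0 / M0 * (Real.exp 1 * G0 * pen y0 y) :=
        mul_le_mul_of_nonneg_left hc h8
      have h10 : 0 ≤ E0 / M0 * (Real.exp 1 * G0 * pen y0 y) := by positivity
      have h11 : 0 ≤ 1 / T0 := by positivity
      calc E0 * F0 / M0 / T0 = E0 / M0 * F0 * (1 / T0) := h6
        _ ≤ E0 / M0 * (Real.exp 1 * G0 * pen y0 y) * Real.exp 2 :=
          mul_le_mul h9 hinv h11 h10
        _ = Real.exp 3 * (E0 * G0 / M0 * pen y0 y) := by rw [h7]; ring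
    have h12 := mul_le_mul_of_nonneg_left (le_trans hm h5) hL
    calc L * (Real.exp (∑ i, th y i (y' i)) * Real.exp (-(∑ i, th y i (y i)))) /
          (∏ i, Zm r (th y i) (y' i)) / ∏ i, Zt r (th y i) (y i)
        = L * (Real.exp (∑ i, th y i (y' i)) * Real.exp (-(∑ i, th y i (y i))) /
          (∏ i, Zm r (th y i) (y' i)) / ∏ i, Zt r (th y i) (y i)) := by ring
      _ ≤ L * (Real.exp 3 * (E0 * G0 / M0 * pen y0 y)) := h12
      _ = Real.exp 3 * (L * (E0 * G0) / M0 * pen y0 y) := by ring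
  have hk0 : ∀ y : ι → A, 0 ≤ (∏ i, kt r (th y0 i) (y' i) (y i)) * pen y0 y := by
    intro y
    refine mul_nonneg (Finset.prod_nonneg fun i _ => ?_) (hpen y0 y)
    refine le_trans ?_ (kt_ge h0 h1 (th y0 i) (hth y0 hB0 i) (y' i) (y i))
    positivity
  calc ∑ y ∈ Finset.univ.filter B,
        (∏ i, kt r (th y i) (y' i) (y i)) / ∏ i, Zt r (th y i) (y i)
      ≤ ∑ y ∈ Finset.univ.filter B,
          Real.exp 3 * ((∏ i, kt r (th y0 i) (y' i) (y i)) * pen y0 y) :=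
        Finset.sum_le_sum hterm
    _ = Real.exp 3 * ∑ y ∈ Finset.univ.filter B,
          (∏ i, kt r (th y0 i) (y' i) (y i)) * pen y0 y := by rw [Finset.mul_sum]
    _ ≤ Real.exp 3 * ∑ y : ι → A, (∏ i, kt r (th y0 i) (y' i) (y i)) * pen y0 y := by
        refine mul_le_mul_of_nonneg_left ?_ (Real.exp_pos _).le
        exact Finset.sum_le_sum_of_subset_of_nonneg (Finset.filter_subset _ _)
          fun y _ _ => hk0 y
    _ ≤ Real.exp 3 * Gam := by
        refine mul_le_mul_of_nonneg_left ?_ (Real.exp_pos _).le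
        exact hac y0 hB0 (fun i a => kt r (th y0 i) (y' i) a)
          (fun i a => kt_ge h0 h1 (th y0 i) (hth y0 hB0 i) (y' i) a)
          (fun i => kt_sum h0 h1 (th y0 i) (y' i))

/-- The argmax lemma. -/
theorem nh_core {r : ℝ} (h0 : 0 ≤ r) (h1 : r ≤ 1 / 24) (B : (ι → A) → Prop)
    (th : (ι → A) → ι → A → ℝ) (pen : (ι → A) → (ι → A) → ℝ) (Gam : ℝ) (hGam : 0 ≤ Gam)
    (hth : ∀ y, B y → ∀ i a b, |th y i a - th y i b| ≤ 1)
    (hpen : ∀ y0 y, 0 ≤ pen y0 y)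
    (hZ : ∀ y, B y → Real.exp (-2) ≤ ∏ i, Zt r (th y i) (y i))
    (hcvx : ∀ y0 y, B y0 → B y → Real.exp (-(∑ i, th y0 i (y0 i))) ≤
      Real.exp 1 * Real.exp (-(∑ i, th y0 i (y i))) * pen y0 y)
    (hac : ∀ y0, B y0 → ∀ P : ι → A → ℝ, (∀ i a, r / 6 / Fintype.card A ≤ P i a) →
      (∀ i, ∑ a, P i a = 1) → ∑ y : ι → A, (∏ i, P i (y i)) * pen y0 y ≤ Gam) :
    dens B ≤ Real.exp 3 * Gam := by
  have hfix := Arg_fixed h0 h1 B th pen Gam hGam hth hpen hZ hcvx hac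
  have hone : ∀ y ∈ Finset.univ.filter B, (1 : ℝ) =
      ∑ y' : ι → A, (∏ i, kt r (th y i) (y' i) (y i)) / ∏ i, Zt r (th y i) (y i) := by
    intro y hy
    have hB : B y := (Finset.mem_filter.1 hy).2
    have hpos : 0 < ∏ i, Zt r (th y i) (y i) := lt_of_lt_of_le (Real.exp_pos _) (hZ y hB)
    rw [← Finset.sum_div, Arg_sum_kt, div_self hpos.ne']
  have hsum : ∑ y : ι → A, (if B y then (1 : ℝ) else 0) ≤
      (Fintype.card (ι → A) : ℝ) * (Real.exp 3 * Gam) := by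
    rw [← Finset.sum_filter, Finset.sum_congr rfl hone, Finset.sum_comm]
    calc ∑ y' : ι → A, ∑ y ∈ Finset.univ.filter B,
          (∏ i, kt r (th y i) (y' i) (y i)) / ∏ i, Zt r (th y i) (y i)
        ≤ ∑ _y' : ι → A, Real.exp 3 * Gam := Finset.sum_le_sum fun y' _ => hfix y'
      _ = (Fintype.card (ι → A) : ℝ) * (Real.exp 3 * Gam) := by
        rw [Finset.sum_const, Finset.card_univ, nsmul_eq_mul]
  have hc : (0 : ℝ) < Fintype.card (ι → A) := by exact_mod_cast Fintype.card_pos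
  unfold dens
  rw [Finset.expect_eq_sum_div_card, Finset.card_univ, div_le_iff₀ hc]
  linarith

end Pool.Agent.P.MP_a54059_lc.PT
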