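import Pool.Agent.P.MP_a54059_lc.PT.Defs
import Pool.Agent.P.MP_7e54d7_co.Prob

/-!
Basic facts: the class kernel is symmetric and stochastic; densities; Hoeffding tails.
-/

namespace Pool.Agent.P.MP_a54059_lc.PT

open Finset
open scoped BigOperators Classical

variable {J ι A : Type} [Fintype ι] [DecidableEq ι] [Fintype A] [DecidableEq A] [Nonempty A]

set_option linter.unusedSectionVars false

theorem mem_cls_self (l : J → ι → A → ℤ) (T : List J) (i : ι) (a : A) : a ∈ cls l T i a := by
  simp [cls]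

theorem cls_eq_of_mem (l : J → ι → A → ℤ) (T : List J) (i : ι) {a b : A} (h : b ∈ cls l T i a) :
    cls l T i b = cls l T i a := by
  simp only [cls, mem_filter, mem_univ, true_and] at h
  ext c
  simp only [cls, mem_filter, mem_univ, true_and]
  exact ⟨fun h' j hj => (h' j hj).trans (h j hj), fun h' j hj => (h' j hj).trans (h j hj).symm⟩

theorem ker_nonneg (l : J → ι → A → ℤ) (T : List J) (i : ι) (a b : A) : 0 ≤ ker l T i a b := by
  unfold ker
  split_ifs <;> positivity

theorem ker_symm (l : J → ι → A → ℤ) (T : List J) (i : ι) (a b : A) :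
    ker l T i a b = ker l T i b a := by
  unfold ker
  by_cases h : b ∈ cls l T i a
  · have e := cls_eq_of_mem l T i h
    have h' : a ∈ cls l T i b := e ▸ mem_cls_self l T i a
    rw [if_pos h, if_pos h', e]
  · have h' : a ∉ cls l T i b := fun h' => h (cls_eq_of_mem l T i h' ▸ mem_cls_self l T i b)
    rw [if_neg h, if_neg h']

theorem ker_sum (l : J → ι → A → ℤ) (T : List J) (i : ι) (a : A) : ∑ b, ker l T i a b = 1 := by
  unfold ker
  rw [← sum_filter, filter_mem_eq_inter, univ_inter, sum_const, nsmul_eq_mul]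
  have : ((cls l T i a).card : ℝ) ≠ 0 := by
    exact_mod_cast (card_pos.2 ⟨a, mem_cls_self l T i a⟩).ne'
  field_simp

theorem ker_ne_zero (l : J → ι → A → ℤ) (T : List J) (i : ι) {a b : A} (h : ker l T i a b ≠ 0) :
    ∀ j ∈ T, l j i b = l j i a := by
  unfold ker at h
  have h' : b ∈ cls l T i a := by
    by_contra h'
    exact h (if_neg h')
  simpa [cls] using h'

theorem dis_nonneg (l : J → ι → A → ℤ) (T : List J) (j : J) (i : ι) (a : A) :
    0 ≤ dis l T j i a := by
  unfold dis
  refine sum_nonneg fun b _ => mul_nonneg (ker_nonneg l T i a b) ?_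
  split_ifs <;> norm_num

theorem dis_le_one (l : J → ι → A → ℤ) (T : List J) (j : J) (i : ι) (a : A) :
    dis l T j i a ≤ 1 := by
  unfold dis
  refine le_trans (sum_le_sum fun b _ => ?_) (ker_sum l T i a).le
  have := ker_nonneg l T i a b
  split_ifs <;> simp [this]

theorem phi_nonneg (lam : ℝ) (s : ℤ) : 0 ≤ phi lam s := by
  unfold phi
  split_ifs <;> positivity

theorem phi_le_one {lam : ℝ} (h : 0 ≤ lam) (s : ℤ) : phi lam s ≤ 1 := by
  unfold phi
  split_ifs with hs
  · have : (0 : ℝ) ≤ s := by exact_mod_cast hs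
    exact Real.exp_le_one_iff.2 (by nlinarith [mul_nonneg h this])
  · norm_num

theorem dens_nonneg {Ω : Type} [Fintype Ω] (P : Ω → Prop) : 0 ≤ dens P := by
  unfold dens
  refine expect_nonneg fun y _ => ?_
  split_ifs <;> norm_num

theorem dens_mono {Ω : Type} [Fintype Ω] {P Q : Ω → Prop} (h : ∀ y, P y → Q y) :
    dens P ≤ dens Q := by
  unfold dens
  refine expect_le_expect fun y _ => ?_
  by_cases hP : P y
  · simp [hP, h y hP]
  · by_cases hQ : Q y <;> simp [hP, hQ]

theorem dens_or {Ω : Type} [Fintype Ω] (P Q : Ω → Prop) :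
    dens (fun y => P y ∨ Q y) ≤ dens P + dens Q := by
  unfold dens
  rw [← expect_add_distrib]
  refine expect_le_expect fun y _ => ?_
  by_cases hP : P y <;> by_cases hQ : Q y <;> simp [hP, hQ]

theorem dens_exists {Ω κ : Type} [Fintype Ω] (S : Finset κ) (P : κ → Ω → Prop) :
    dens (fun y => ∃ k ∈ S, P k y) ≤ ∑ k ∈ S, dens (P k) := by
  induction S using Finset.induction_on with
  | empty => simp [dens]
  | insert a S ha ih =>
    rw [sum_insert ha]
    refine le_trans (dens_mono (Q := fun y => P a y ∨ ∃ k ∈ S, P k y) ?_)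
      ((dens_or _ _).trans (by linarith))
    rintro y ⟨k, hk, hy⟩
    rcases mem_insert.1 hk with rfl | hk
    · exact Or.inl hy
    · exact Or.inr ⟨k, hk, hy⟩

theorem exists_not_of_dens_lt {Ω : Type} [Fintype Ω] [Nonempty Ω] {P : Ω → Prop}
    (h : dens P < 1) : ∃ y, ¬ P y := by
  by_contra hc
  push Not at hc
  have : dens P = 1 := by
    unfold dens
    simp [hc]
  linarith

theorem dens_le_one {Ω : Type} [Fintype Ω] (P : Ω → Prop) : dens P ≤ 1 := by
  unfold dens
  rcases isEmpty_or_nonempty Ω with h | h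
  · simp
  · rw [← Fintype.expect_const (ι := Ω) (1 : ℝ)]
    refine expect_le_expect fun y _ => ?_
    split_ifs <;> norm_num

/-- Hoeffding, lower tail. -/
theorem hoeff_low {B : Type} [Fintype B] [Nonempty B] (f : ι → B → ℝ) (c u : ℝ) (hc : 0 < c)
    (hu : 0 ≤ u) (hf : ∀ i a b, |f i a - f i b| ≤ c) :
    dens (fun y : ι → B => ∑ i, f i (y i) ≤ ∑ i, 𝔼 a, f i a - u) ≤
      Real.exp (-(u ^ 2 / (2 * Fintype.card ι * c ^ 2))) := by
  rcases Nat.eq_zero_or_pos (Fintype.card ι) with hq | hq
  · simpa [hq] using dens_le_one _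
  have hq' : (0 : ℝ) < Fintype.card ι := by exact_mod_cast hq
  set q : ℝ := (Fintype.card ι : ℝ) with hqd
  set s : ℝ := u / (q * c ^ 2) with hs
  have hs0 : 0 ≤ s := by positivity
  set m : ℝ := ∑ i, 𝔼 a, f i a with hm
  have key := Pool.Agent.P.MP_7e54d7_co.mcdiarmid (Ω := B) (ι := ι)
    (fun y => s * ∑ i, f i (y i)) (fun _ => s * c) (by
      intro x ω a b
      rw [← mul_sub, abs_mul, abs_of_nonneg hs0, ← sum_sub_distrib]
      refine mul_le_mul_of_nonneg_left ?_ hs0
      rw [sum_eq_single x]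
      · simpa using hf x a b
      · intro i _ hi
        simp [Function.update_of_ne hi]
      · simp)
  have hmean : 𝔼 y : ι → B, s * ∑ i, f i (y i) = s * m := by
    rw [← mul_expect, expect_sum_comm, hm]
    congr 1
    exact sum_congr rfl fun i _ => Pool.Agent.P.MP_7e54d7_co.expect_coord i (f i)
  rw [hmean, sum_const, card_univ, nsmul_eq_mul, ← hqd] at key
  have h1 : dens (fun y : ι → B => ∑ i, f i (y i) ≤ m - u) ≤
      Real.exp (s * (m - u)) * 𝔼 y : ι → B, Real.exp (-(s * ∑ i, f i (y i))) := by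
    unfold dens
    rw [mul_expect]
    refine expect_le_expect fun y _ => ?_
    rw [← Real.exp_add]
    split_ifs with h
    · exact Real.one_le_exp (by nlinarith [mul_le_mul_of_nonneg_left h hs0])
    · positivity
  refine h1.trans ((mul_le_mul_of_nonneg_left key (Real.exp_pos _).le).trans ?_)
  rw [← Real.exp_add]
  refine Real.exp_le_exp.2 (le_of_eq ?_)
  rw [hs]
  field_simp
  ring

/-- Hoeffding, upper tail. -/
theorem hoeff_up {B : Type} [Fintype B] [Nonempty B] (f : ι → B → ℝ) (c u : ℝ) (hc : 0 < c)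
    (hu : 0 ≤ u) (hf : ∀ i a b, |f i a - f i b| ≤ c) :
    dens (fun y : ι → B => ∑ i, 𝔼 a, f i a + u ≤ ∑ i, f i (y i)) ≤
      Real.exp (-(u ^ 2 / (2 * Fintype.card ι * c ^ 2))) := by
  refine le_trans (dens_mono ?_) (hoeff_low (fun i a => - f i a) c u hc hu fun i a b => ?_)
  · intro y hy
    simp only [expect_neg_distrib, sum_neg_distrib]
    linarith
  · rw [show -f i a - -f i b = -(f i a - f i b) by ring, abs_neg]
    exact hf i a b

/-- All lists of length at most `h` lie in a finite set of at most `(h + 1) * K ^ h` lists. -/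
theorem exists_lists [Fintype J] (h K : ℕ) (hK : Fintype.card J ≤ K) (hK1 : 1 ≤ K) :
    ∃ S : Finset (List J), (∀ T : List J, T.length ≤ h → T ∈ S) ∧ S.card ≤ (h + 1) * K ^ h := by
  refine ⟨(range (h + 1)).biUnion fun n => (univ : Finset (Fin n → J)).image List.ofFn, ?_, ?_⟩
  · intro T hT
    refine mem_biUnion.2 ⟨T.length, mem_range.2 (by omega), mem_image.2 ⟨T.get, mem_univ _, ?_⟩⟩
    exact List.ofFn_get T
  · refine card_biUnion_le.trans ?_
    refine (sum_le_card_nsmul _ _ (K ^ h) fun n hn => ?_).trans (by simp)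
    refine card_image_le.trans ?_
    rw [card_univ, Fintype.card_fun, Fintype.card_fin]
    exact (Nat.pow_le_pow_left hK n).trans
      (Nat.pow_le_pow_right hK1 (by have := mem_range.1 hn; omega))

end Pool.Agent.P.MP_a54059_lc.PT
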