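import Pool.Agent.P.MP_a54059_lc.PT.Basic

/-!
Choice of the centre (paper, section ChooseX).  The number of classes is at most
`(Lam + 1) ^ T.length`, so `𝔼 a, ker l T i a a ≤ 1 / 2`.  For `a ≠ b` at most half of the `c` have
`hammingDist c a = hammingDist c b` (flip a coordinate where `a` and `b` differ).  By `ker_symm`,
`𝔼 a, dec` is half the chance that the distance changes.  Use `hoeff_low` with `f i c = 𝔼 a, dec`
(range `1 / 2`, mean at least `1 / 8`) and `exists_lists`.
-/

namespace Pool.Agent.P.MP_a54059_lc.PT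

open Finset
open scoped BigOperators Classical

variable {J ι A : Type} [Fintype ι] [DecidableEq ι] [Fintype A] [DecidableEq A] [Nonempty A]

theorem dec_nonneg {s : ℕ} (l : J → ι → (Fin s → Bool) → ℤ) (T : List J) (c : ι → Fin s → Bool)
    (i : ι) (a : Fin s → Bool) : 0 ≤ dec l T c i a :=
  sum_nonneg fun b _ => mul_nonneg (ker_nonneg l T i a b) (by split_ifs <;> norm_num)

theorem dec_le_one {s : ℕ} (l : J → ι → (Fin s → Bool) → ℤ) (T : List J) (c : ι → Fin s → Bool)
    (i : ι) (a : Fin s → Bool) : dec l T c i a ≤ 1 := by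
  rw [← ker_sum l T i a]
  exact sum_le_sum fun b _ => mul_le_of_le_one_right (ker_nonneg l T i a b)
    (by split_ifs <;> norm_num)

theorem ChooseX_diag (l : J → ι → A → ℤ) (Lam : ℕ) (hl : ∀ j i a b, |l j i a - l j i b| ≤ Lam)
    (T : List J) (i : ι) : ∑ a, ker l T i a a ≤ ((2 * Lam + 1) ^ T.length : ℕ) := by
  obtain ⟨a₀⟩ := ‹Nonempty A›
  let g : A → Fin T.length → ℤ := fun a k => l (T.get k) i a - l (T.get k) i a₀
  let B : Finset (Fin T.length → ℤ) := Fintype.piFinset fun _ => Icc (-(Lam : ℤ)) Lam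
  have hB : B.card = (2 * Lam + 1) ^ T.length := by
    rw [Fintype.card_piFinset_const, Int.card_Icc]
    congr 1
    omega
  have hg : ∀ a ∈ (univ : Finset A), g a ∈ B := fun a _ =>
    Fintype.mem_piFinset.2 fun k => mem_Icc.2 (abs_le.1 (hl _ i a a₀))
  rw [← sum_fiberwise_of_maps_to hg, ← hB, card_eq_sum_ones, Nat.cast_sum]
  refine sum_le_sum fun v _ => ?_
  have e : ∀ a ∈ univ.filter fun a => g a = v,
      ker l T i a a = 1 / ((univ.filter fun a => g a = v).card : ℝ) := by
    intro a ha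
    have ha' := (mem_filter.1 ha).2
    have : cls l T i a = univ.filter fun a => g a = v := by
      ext b
      simp only [cls, mem_filter, mem_univ, true_and, ← ha']
      constructor
      · intro h
        funext k
        simp only [g, h _ (List.get_mem T k)]
      · intro h j hj
        obtain ⟨k, rfl⟩ := List.get_of_mem hj
        have := congrFun h k
        simp only [g] at this
        omega
    rw [ker, if_pos (mem_cls_self l T i a), this]
  rw [sum_congr rfl e, sum_const, nsmul_eq_mul, mul_one_div, Nat.cast_one]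
  exact div_self_le_one _

theorem ChooseX_ham {s : ℕ} (x a : Fin s → Bool) (k : Fin s) : hammingDist x a =
    (if x k = a k then 0 else 1) + ∑ j ∈ univ.erase k, if x j = a j then 0 else 1 := by
  rw [add_sum_erase univ (fun j => if x j = a j then 0 else 1) (mem_univ k), hammingDist,
    card_filter]
  exact sum_congr rfl fun j _ => by split_ifs <;> simp_all

theorem ChooseX_half {s : ℕ} {a b : Fin s → Bool} (hab : a ≠ b) :
    (2 : ℝ) ^ s / 2 ≤ ∑ x : Fin s → Bool,
      ((if hammingDist x b < hammingDist x a then (1 : ℝ) else 0) +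
        if hammingDist x a < hammingDist x b then (1 : ℝ) else 0) := by
  obtain ⟨k, hk⟩ := Function.ne_iff.1 hab
  let F : (Fin s → Bool) → ℝ := fun x =>
    (if hammingDist x b < hammingDist x a then (1 : ℝ) else 0) +
      if hammingDist x a < hammingDist x b then (1 : ℝ) else 0
  let φ : (Fin s → Bool) → Fin s → Bool := fun x => Function.update x k (!x k)
  have hφ : Function.Involutive φ := fun x => by simp [φ]
  have h1 : ∑ x, F (φ x) = ∑ x, F x := hφ.bijective.sum_comp F
  have h2 : ∀ x, 1 ≤ F x + F (φ x) := by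
    intro x
    have r : ∀ y : Fin s → Bool, (∑ j ∈ univ.erase k, if φ x j = y j then 0 else 1) =
        ∑ j ∈ univ.erase k, if x j = y j then 0 else 1 := fun y =>
      sum_congr rfl fun j hj => by simp only [φ, Function.update_of_ne (ne_of_mem_erase hj)]
    have a1 := ChooseX_ham x a k
    have a2 := ChooseX_ham x b k
    have a3 := ChooseX_ham (φ x) a k
    have a4 := ChooseX_ham (φ x) b k
    rw [r] at a3 a4
    have e : φ x k = !x k := Function.update_self ..
    rw [e] at a3 a4
    have key : hammingDist x a ≠ hammingDist x b ∨ hammingDist (φ x) a ≠ hammingDist (φ x) b := by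
      revert a1 a2 a3 a4 hk
      cases x k <;> cases a k <;> cases b k <;> simp <;> omega
    simp only [F]
    split_ifs <;> first | omega | norm_num
  have h3 : ∑ _x : Fin s → Bool, (1 : ℝ) ≤ ∑ x, (F x + F (φ x)) := sum_le_sum fun x _ => h2 x
  rw [sum_add_distrib, h1] at h3
  simp only [sum_const, card_univ, Fintype.card_pi, Fintype.card_bool, prod_const,
    Fintype.card_fin, nsmul_eq_mul, mul_one, Nat.cast_pow, Nat.cast_ofNat] at h3
  change _ ≤ ∑ x, F x
  linarith

theorem ChooseX_mean {s : ℕ} (l : J → ι → (Fin s → Bool) → ℤ) (T : List J) (i : ι)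
    (hd : ∑ a, ker l T i a a ≤ (2 : ℝ) ^ s / 2) :
    1 / 8 ≤ 𝔼 x : Fin s → Bool, 𝔼 a, dec l T (fun _ => x) i a := by
  let w : (Fin s → Bool) → (Fin s → Bool) → (Fin s → Bool) → ℝ := fun x a b =>
    if hammingDist x b < hammingDist x a then 1 else 0
  have hN : (0 : ℝ) < 2 ^ s := by positivity
  have hc : (Fintype.card (Fin s → Bool) : ℝ) = 2 ^ s := by simp
  have h1 : ∀ x, 2 * ∑ a, dec l T (fun _ => x) i a =
      ∑ a, ∑ b, ker l T i a b * (w x a b + w x b a) := by
    intro x
    have e : ∑ a, ∑ b, ker l T i a b * w x b a = ∑ a, ∑ b, ker l T i a b * w x a b := by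
      rw [sum_comm]
      exact sum_congr rfl fun a _ => sum_congr rfl fun b _ => by rw [ker_symm]
    simp only [mul_add, sum_add_distrib, e, two_mul]
    rfl
  have h2 : ∀ a, (2 : ℝ) ^ s / 2 * (1 - ker l T i a a) ≤
      ∑ b, ∑ x, ker l T i a b * (w x a b + w x b a) := by
    intro a
    rw [← ker_sum l T i a, ← add_sum_erase univ _ (mem_univ a), add_sub_cancel_left, mul_sum,
      ← add_sum_erase univ _ (mem_univ a)]
    refine le_add_of_nonneg_of_le (sum_nonneg fun x _ => mul_nonneg (ker_nonneg l T i a a) ?_)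
      (sum_le_sum fun b hb => ?_)
    · simp [w]
    · rw [← mul_sum, mul_comm]
      exact mul_le_mul_of_nonneg_left (ChooseX_half (ne_of_mem_erase hb).symm) (ker_nonneg l T i a b)
  have h3 : (2 : ℝ) ^ s / 2 * (2 ^ s - ∑ a, ker l T i a a) ≤
      2 * ∑ x : Fin s → Bool, ∑ a, dec l T (fun _ => x) i a := by
    rw [mul_sum]
    simp only [h1]
    rw [sum_comm]
    refine le_trans (le_of_eq ?_) (sum_le_sum fun a _ => (h2 a).trans_eq sum_comm)
    rw [← mul_sum, sum_sub_distrib, sum_const, card_univ, nsmul_eq_mul, hc, mul_one]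
  simp only [Fintype.expect_eq_sum_div_card, hc]
  rw [← sum_div, div_div, le_div_iff₀ (mul_pos hN hN)]
  nlinarith

theorem choose_x [Fintype J] {s : ℕ} (l : J → ι → (Fin s → Bool) → ℤ) (Lam h K : ℕ)
    (hK : Fintype.card J ≤ K) (hK1 : 1 ≤ K) (hl : ∀ j i a b, |l j i a - l j i b| ≤ Lam)
    (hs : 2 * (2 * Lam + 1) ^ h ≤ 2 ^ s)
    (hq : ((h + 1) * K ^ h : ℕ) * Real.exp (-((Fintype.card ι : ℝ) / 512)) < 1) :
    ∃ c : ι → Fin s → Bool, ∀ T : List J, T.length ≤ h →
      (Fintype.card ι : ℝ) / 16 ≤ ∑ i, 𝔼 a, dec l T c i a := by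
  obtain ⟨S, hS, hcard⟩ := exists_lists (J := J) h K hK hK1
  let P : List J → (ι → Fin s → Bool) → Prop := fun T c =>
    ∑ i, 𝔼 a, dec l T (fun _ => c i) i a ≤
      ∑ i, 𝔼 x : Fin s → Bool, 𝔼 a, dec l T (fun _ => x) i a - (Fintype.card ι : ℝ) / 16
  have hP : ∀ T, dens (P T) ≤ Real.exp (-((Fintype.card ι : ℝ) / 512)) := by
    intro T
    have b0 : ∀ i (x : Fin s → Bool), 0 ≤ 𝔼 a, dec l T (fun _ => x) i a := fun i x =>
      expect_nonneg fun a _ => dec_nonneg l T _ i a
    have b1 : ∀ i (x : Fin s → Bool), 𝔼 a, dec l T (fun _ => x) i a ≤ 1 := fun i x =>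
      expect_le univ_nonempty fun a _ => dec_le_one l T _ i a
    refine (hoeff_low (fun i (x : Fin s → Bool) => 𝔼 a, dec l T (fun _ => x) i a) 1
      ((Fintype.card ι : ℝ) / 16) one_pos (by positivity) fun i x y => ?_).trans_eq ?_
    · rw [abs_le]
      constructor <;> linarith [b0 i x, b1 i x, b0 i y, b1 i y]
    · congr 2
      rcases eq_or_ne (Fintype.card ι : ℝ) 0 with h0 | h0
      · simp [h0]
      · field_simp
        norm_num
  have hd : dens (fun c => ∃ T ∈ S, P T c) < 1 := by
    refine ((dens_exists S P).trans ((sum_le_sum fun T _ => hP T).trans ?_)).trans_lt hq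
    rw [sum_const, nsmul_eq_mul]
    exact mul_le_mul_of_nonneg_right (Nat.cast_le.2 hcard) (Real.exp_pos _).le
  obtain ⟨c, hc⟩ := exists_not_of_dens_lt hd
  refine ⟨c, fun T hT => ?_⟩
  have h1 := not_le.1 fun h => hc ⟨T, hS T hT, h⟩
  have h2 : ∑ _i : ι, (1 / 8 : ℝ) ≤ ∑ i, 𝔼 x : Fin s → Bool, 𝔼 a, dec l T (fun _ => x) i a := by
    refine sum_le_sum fun i _ => ChooseX_mean l T i ((ChooseX_diag l Lam hl T i).trans ?_)
    have a1 : (2 * Lam + 1) ^ T.length ≤ (2 * Lam + 1) ^ h := Nat.pow_le_pow_right (by omega) hT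
    have a2 : ((2 * (2 * Lam + 1) ^ T.length : ℕ) : ℝ) ≤ (2 ^ s : ℕ) := Nat.cast_le.2 (by omega)
    rw [Nat.cast_mul, Nat.cast_pow 2, Nat.cast_ofNat] at a2
    linarith
  rw [sum_const, card_univ, nsmul_eq_mul] at h2
  change _ ≤ ∑ i, 𝔼 a, dec l T (fun _ => c i) i a
  linarith

end Pool.Agent.P.MP_a54059_lc.PT
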