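import Pool.Agent.P.MP_a54059_lc.PT.S1

/-!
Counting half of the short-facet lemma (paper, section S, S2), and the lemma itself.
The data `(u g, w g)` of different groups are independent.  Given the data of group `g` with a
violated facet `j`, the chance that group `g'` changes `l j` is `𝔼 v, dis l T j (g', v) (z (g', v))`;
the sum over `g'` is at most `1 / 4`.  So the mean number of good groups is at least
`3 / 4 * |G| * beta`, and it never exceeds `|G|`.
-/

namespace Pool.Agent.P.MP_a54059_lc.PT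

open Finset
open scoped BigOperators Classical

variable {J ι A : Type} [Fintype ι] [DecidableEq ι] [Fintype A] [DecidableEq A] [Nonempty A]

section
variable {G Ω : Type} [Fintype G] [DecidableEq G] [Fintype Ω]

omit [Fintype Ω] in
theorem S2_upd (p : G → Ω → ℝ) (x : G → Ω) (g : G) (ω : Ω) :
    (∏ k, p k (Function.update x g ω k)) * p g (x g) = (∏ k, p k (x k)) * p g ω := by
  rw [← mul_prod_erase univ _ (mem_univ g), ← mul_prod_erase univ (fun k => p k (x k)) (mem_univ g),
    Function.update_self,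
    prod_congr rfl fun k hk => by rw [Function.update_of_ne (ne_of_mem_erase hk)]]
  ring

theorem S2_res (p : G → Ω → ℝ) (g : G) (hp : ∑ ω, p g ω = 1) (F : (G → Ω) → ℝ) :
    ∑ x : G → Ω, (∏ k, p k (x k)) * F x =
      ∑ x : G → Ω, (∏ k, p k (x k)) * ∑ ω, p g ω * F (Function.update x g ω) := by
  let σ : (G → Ω) × Ω → (G → Ω) × Ω := fun q => (Function.update q.1 g q.2, q.1 g)
  have hσ : Function.Involutive σ := by
    rintro ⟨x, ω⟩
    simp [σ]
  calc _ = ∑ q : (G → Ω) × Ω, (∏ k, p k (q.1 k)) * p g q.2 * F q.1 := by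
        rw [Fintype.sum_prod_type]
        refine sum_congr rfl fun x _ => ?_
        simp only
        rw [← sum_mul, ← mul_sum, hp, mul_one]
    _ = ∑ q : (G → Ω) × Ω, (∏ k, p k ((σ q).1 k)) * p g (σ q).2 * F (σ q).1 :=
        (Equiv.sum_comp hσ.toPerm fun q => (∏ k, p k (q.1 k)) * p g q.2 * F q.1).symm
    _ = _ := by
        rw [Fintype.sum_prod_type]
        refine sum_congr rfl fun x _ => ?_
        rw [mul_sum]
        refine sum_congr rfl fun ω _ => ?_
        simp only [σ]
        rw [S2_upd, mul_assoc]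

theorem S2_tot (p : G → Ω → ℝ) (hp : ∀ g, ∑ ω, p g ω = 1) :
    ∑ x : G → Ω, ∏ k, p k (x k) = 1 := by
  rw [← Fintype.prod_sum]
  exact prod_eq_one fun g _ => hp g

theorem S2_one (p : G → Ω → ℝ) (hp : ∀ g, ∑ ω, p g ω = 1) (g : G) (f : Ω → ℝ) :
    ∑ x : G → Ω, (∏ k, p k (x k)) * f (x g) = ∑ ω, p g ω * f ω := by
  rw [S2_res p g (hp g)]
  simp only [Function.update_self]
  rw [← sum_mul, S2_tot p hp, one_mul]

theorem S2_good (p : G → Ω → ℝ) (hp0 : ∀ g ω, 0 ≤ p g ω) (hp : ∀ g, ∑ ω, p g ω = 1) (g : G)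
    (V : Ω → ℝ) (D : Ω → G → Ω → ℝ) (I : (G → Ω) → ℝ)
    (hD : ∀ ω, ∑ g' ∈ univ.erase g, ∑ ω', p g' ω' * D ω g' ω' ≤ V ω / 4)
    (hI : ∀ x, V (x g) - ∑ g' ∈ univ.erase g, D (x g) g' (x g') ≤ I x) :
    3 / 4 * ∑ ω, p g ω * V ω ≤ ∑ x : G → Ω, (∏ k, p k (x k)) * I x := by
  have h0 : ∀ x : G → Ω, 0 ≤ ∏ k, p k (x k) := fun x => prod_nonneg fun k _ => hp0 _ _
  have h1 : ∑ x : G → Ω, (∏ k, p k (x k)) * ∑ g' ∈ univ.erase g, D (x g) g' (x g') =
      ∑ x : G → Ω, (∏ k, p k (x k)) * ∑ g' ∈ univ.erase g, ∑ ω', p g' ω' * D (x g) g' ω' := by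
    simp only [mul_sum (s := univ.erase g)]
    rw [sum_comm, sum_comm (t := univ.erase g)]
    refine sum_congr rfl fun g' hg' => ?_
    rw [S2_res p g' (hp g')]
    simp only [Function.update_self, Function.update_of_ne (ne_of_mem_erase hg').symm]
  have h2 : ∑ x : G → Ω, (∏ k, p k (x k)) * ∑ g' ∈ univ.erase g, ∑ ω', p g' ω' * D (x g) g' ω' ≤
      ∑ x : G → Ω, (∏ k, p k (x k)) * (V (x g) / 4) :=
    sum_le_sum fun x _ => mul_le_mul_of_nonneg_left (hD _) (h0 x)
  have h3 := sum_le_sum fun x (_ : x ∈ univ) => mul_le_mul_of_nonneg_left (hI x) (h0 x)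
  simp only [mul_sub, sum_sub_distrib] at h3
  simp only [← mul_div_assoc, ← sum_div] at h2
  rw [h1] at h3
  rw [S2_one p hp g V] at h2 h3
  linarith

end

omit [DecidableEq A] [Nonempty A] in
theorem S2_conv {G U : Type} [Fintype G] [Fintype U] [DecidableEq G] [DecidableEq U]
    (k : G → U → A → ℝ) (F : (G → U) → (G → A) → ℝ) :
    𝔼 u : G → U, ∑ w : G → A, (∏ g, k g (u g) (w g)) * F u w =
      ∑ x : G → U × A, (∏ g, k g (x g).1 (x g).2 / Fintype.card U) *
        F (fun g => (x g).1) fun g => (x g).2 := by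
  rw [← (Equiv.arrowProdEquivProdArrow G (fun _ => U) fun _ => A).symm.sum_comp,
    Fintype.sum_prod_type, Fintype.expect_eq_sum_div_card, sum_div]
  refine sum_congr rfl fun u _ => ?_
  rw [sum_div]
  refine sum_congr rfl fun w _ => ?_
  rw [prod_div_distrib, prod_const, card_univ, Fintype.card_fun, Nat.cast_pow, div_mul_eq_mul_div]
  rfl

omit [Fintype A] [DecidableEq A] [Nonempty A] in
theorem S2_mv {G U : Type} [DecidableEq G] [DecidableEq U] (z : G × U → A) (u : G → U)
    (w : G → A) (g : G) : mv z u w {g} = Function.update z (g, u g) (w g) := by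
  funext i
  obtain ⟨g', v⟩ := i
  by_cases h : (g', v) = (g, u g)
  · rw [h]
    simp [mv]
  · rw [Function.update_of_ne h]
    refine if_neg ?_
    rintro ⟨h1, h2⟩
    have h3 : g' = g := mem_singleton.1 h1
    subst h3
    exact h (congrArg (Prod.mk g') h2)

theorem s_two {G U : Type} [Fintype G] [Fintype U] [DecidableEq G] [DecidableEq U] [Nonempty G]
    [Nonempty U] (l : J → G × U → A → ℤ) (T : List J) (Sh : J → Prop) (t : J → ℤ) (beta : ℝ)
    (b : ℕ) (hb : (b : ℝ) ≤ Fintype.card G * beta / 4) (z : G × U → A)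
    (hex : beta ≤ ex l T Sh t z)
    (htyp : ∀ j, Sh j → ∑ i, dis l T j i (z i) ≤ Fintype.card U / 4) :
    beta / 2 ≤ 𝔼 u : G → U, ∑ w : G → A, (∏ g, ker l T (g, u g) (z (g, u g)) (w g)) *
        (if b ≤ (univ.filter fun g => Good l Sh t z u w g).card then (1 : ℝ) else 0) := by
  have hU : (0 : ℝ) < Fintype.card U := by exact_mod_cast Fintype.card_pos
  have hG : (0 : ℝ) < Fintype.card G := by exact_mod_cast Fintype.card_pos
  rw [S2_conv (fun g v a => ker l T (g, v) (z (g, v)) a)
    fun u w => if b ≤ (univ.filter fun g => Good l Sh t z u w g).card then (1 : ℝ) else 0]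
  let p : G → U × A → ℝ := fun g ω => ker l T (g, ω.1) (z (g, ω.1)) ω.2 / Fintype.card U
  have hp0 : ∀ g ω, 0 ≤ p g ω := fun g ω => div_nonneg (ker_nonneg _ _ _ _ _) hU.le
  have hp : ∀ g, ∑ ω, p g ω = 1 := fun g => by
    rw [Fintype.sum_prod_type]
    simp only [p, ← sum_div, ker_sum]
    rw [sum_const, card_univ, nsmul_eq_mul, mul_one, div_self hU.ne']
  let V : G → U × A → ℝ := fun g ω =>
    if ∀ j, Sh j → L l j (Function.update z (g, ω.1) ω.2) ≤ t j then 0 else 1
  let C : J → G → U × A → ℝ := fun j g ω =>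
    if l j (g, ω.1) ω.2 = l j (g, ω.1) (z (g, ω.1)) then 0 else 1
  have hC0 : ∀ j g ω, 0 ≤ C j g ω := fun j g ω => by
    simp only [C]
    split_ifs <;> norm_num
  have hC : ∀ j, Sh j → ∑ g, ∑ ω, p g ω * C j g ω ≤ 1 / 4 := fun j hj => by
    have e : ∑ g, ∑ ω, p g ω * C j g ω = (∑ i, dis l T j i (z i)) / Fintype.card U := by
      rw [Fintype.sum_prod_type, sum_div]
      refine sum_congr rfl fun g _ => ?_
      rw [Fintype.sum_prod_type, sum_div]
      refine sum_congr rfl fun v _ => ?_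
      rw [dis, sum_div]
      exact sum_congr rfl fun a _ => div_mul_eq_mul_div _ _ _
    rw [e, div_le_iff₀ hU]
    linarith [htyp j hj]
  have hV : ∑ g, ∑ ω, p g ω * V g ω = Fintype.card G * ex l T Sh t z := by
    rw [ex, Fintype.expect_eq_sum_div_card, Fintype.card_prod, Nat.cast_mul, ← mul_div_assoc,
      mul_div_mul_left _ _ hG.ne', Fintype.sum_prod_type, sum_div]
    refine sum_congr rfl fun g _ => ?_
    rw [Fintype.sum_prod_type, sum_div]
    refine sum_congr rfl fun v _ => ?_
    rw [sum_div]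
    exact sum_congr rfl fun a _ => div_mul_eq_mul_div _ _ _
  let Gd : (G → U × A) → G → Prop := fun x g =>
    Good l Sh t z (fun g => (x g).1) (fun g => (x g).2) g
  have key : ∀ g, 3 / 4 * ∑ ω, p g ω * V g ω ≤
      ∑ x : G → U × A, (∏ k, p k (x k)) * (if Gd x g then (1 : ℝ) else 0) := fun g => by
    refine S2_good p hp0 hp g (V g) (fun ω g' ω' =>
      if h : ∃ j, Sh j ∧ t j < L l j (Function.update z (g, ω.1) ω.2) then C h.choose g' ω' else 0)
      _ (fun ω => ?_) fun x => ?_
    · by_cases h : ∃ j, Sh j ∧ t j < L l j (Function.update z (g, ω.1) ω.2)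
      · have h1 : V g ω = 1 := if_neg fun h' => h.choose_spec.2.not_ge (h' _ h.choose_spec.1)
        simp only [dif_pos h]
        rw [h1]
        exact (sum_le_sum_of_subset_of_nonneg (erase_subset _ _) fun g' _ _ =>
          sum_nonneg fun ω' _ => mul_nonneg (hp0 _ _) (hC0 _ _ _)).trans (hC _ h.choose_spec.1)
      · have h1 : V g ω = 0 := if_pos fun j hj => not_lt.1 fun h' => h ⟨j, hj, h'⟩
        simp only [dif_neg h, mul_zero, sum_const_zero]
        rw [h1, zero_div]
    · by_cases h : ∃ j, Sh j ∧ t j < L l j (Function.update z (g, (x g).1) (x g).2)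
      · have h1 : V g (x g) = 1 :=
          if_neg fun h' => h.choose_spec.2.not_ge (h' _ h.choose_spec.1)
        simp only [dif_pos h]
        rw [h1]
        by_cases hg : Gd x g
        · rw [if_pos hg]
          exact sub_le_self _ (sum_nonneg fun g' _ => hC0 _ _ _)
        · rw [if_neg hg, sub_nonpos]
          obtain ⟨g', h2, h3⟩ : ∃ g', g' ≠ g ∧ ¬ l h.choose (g', (x g').1) (x g').2 =
              l h.choose (g', (x g').1) (z (g', (x g').1)) := by
            by_contra hc
            refine hg ⟨h.choose, h.choose_spec.1, ?_, fun g' h2 => ?_⟩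
            · rw [S2_mv]
              exact h.choose_spec.2
            · by_contra h3
              exact hc ⟨g', h2, h3⟩
          have h4 : C h.choose g' (x g') = 1 := if_neg h3
          rw [← h4]
          exact single_le_sum (f := fun g' => C h.choose g' (x g')) (fun _ _ => hC0 _ _ _)
            (mem_erase.2 ⟨h2, mem_univ _⟩)
      · have h1 : V g (x g) = 0 := if_pos fun j hj => not_lt.1 fun h' => h ⟨j, hj, h'⟩
        simp only [dif_neg h, sum_const_zero]
        rw [h1, sub_zero]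
        split_ifs <;> norm_num
  have h1 := sum_le_sum fun g (_ : g ∈ univ) => key g
  rw [← mul_sum, hV, sum_comm] at h1
  have h2 : ∑ x : G → U × A, ∑ g, (∏ k, p k (x k)) * (if Gd x g then (1 : ℝ) else 0) ≤
      ∑ x : G → U × A, (∏ k, p k (x k)) * (b + Fintype.card G *
        if b ≤ (univ.filter fun g => Gd x g).card then (1 : ℝ) else 0) := by
    refine sum_le_sum fun x _ => ?_
    rw [← mul_sum, sum_boole]
    refine mul_le_mul_of_nonneg_left ?_ (prod_nonneg fun k _ => hp0 _ _)
    have h3 : ((univ.filter fun g => Gd x g).card : ℝ) ≤ Fintype.card G := by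
      exact_mod_cast card_le_univ _
    have h4 : (0 : ℝ) ≤ b := Nat.cast_nonneg b
    split_ifs with h5
    · linarith
    · have h6 : ((univ.filter fun g => Gd x g).card : ℝ) ≤ b := by
        exact_mod_cast (not_le.1 h5).le
      linarith
  simp only [mul_add, sum_add_distrib, mul_left_comm _ (Fintype.card G : ℝ)] at h2
  rw [← sum_mul, S2_tot p hp, one_mul, ← mul_sum] at h2
  refine le_of_mul_le_mul_left ?_ hG
  have h7 := mul_le_mul_of_nonneg_left hex hG.le
  have h8 := h1.trans h2
  change _ ≤ (Fintype.card G : ℝ) * ∑ x : G → U × A, (∏ k, p k (x k)) *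
    if b ≤ (univ.filter fun g => Gd x g).card then (1 : ℝ) else 0
  linarith

theorem s_lemma {G U : Type} [Fintype G] [Fintype U] [DecidableEq G] [DecidableEq U] [Nonempty G]
    [Nonempty U] (l : J → G × U → A → ℤ) (T : List J) (Sh : J → Prop) (t : J → ℤ) (beta : ℝ)
    (hbeta : 0 < beta) (b : ℕ) (hb : (b : ℝ) ≤ Fintype.card G * beta / 4) :
    dens (fun z : G × U → A => (∀ j, Sh j → L l j z ≤ t j) ∧ beta ≤ ex l T Sh t z ∧
        ∀ j, Sh j → ∑ i, dis l T j i (z i) ≤ Fintype.card U / 4) ≤ 2 / beta * (1 / 2) ^ b := by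
  have h1 := expect_le_expect fun u (_ : u ∈ (univ : Finset (G → U))) => s_one l T Sh t u b
  rw [Fintype.expect_const, expect_comm] at h1
  rw [div_mul_eq_mul_div, le_div_iff₀ hbeta, mul_comm (2 : ℝ), ← div_le_iff₀ two_pos,
    mul_div_assoc, dens, expect_mul]
  refine le_trans (expect_le_expect fun z _ => ?_) h1
  split_ifs with h
  · rw [one_mul]
    refine (s_two l T Sh t beta b hb z h.2.1 h.2.2).trans (le_of_eq ?_)
    refine expect_congr rfl fun u _ => sum_congr rfl fun w _ => ?_
    exact congrArg _ (if_congr (and_iff_right h.1).symm rfl rfl)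
  · rw [zero_mul]
    refine expect_nonneg fun u _ => sum_nonneg fun w _ =>
      mul_nonneg (prod_nonneg fun g _ => ker_nonneg _ _ _ _ _) ?_
    split_ifs <;> norm_num

end Pool.Agent.P.MP_a54059_lc.PT
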