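import Pool.Agent.P.MP_a54059_lc.PT.Nh
import Pool.Agent.P.MP_a54059_lc.PT.S2
import Pool.Agent.P.MP_a54059_lc.PT.ChooseX

/-!
Assembly with free parameters (paper, section Core): the level set inside the polytope is covered
by the set of `nh`, and, over the lists `T` of `greedy` with `Sh j = Nn l T j < N`,
`N = |U| / 8`, by the set of `s_lemma` (`beta = 1 / 32`) and two Hoeffding sets.
-/

namespace Pool.Agent.P.MP_a54059_lc.PT

open Finset
open scoped BigOperators Classical

variable {J ι A : Type} [Fintype ι] [DecidableEq ι] [Fintype A] [DecidableEq A] [Nonempty A]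

theorem Core_L_update (l : J → ι → A → ℤ) (j : J) (y : ι → A) (i : ι) (b : A) :
    L l j (Function.update y i b) = L l j y - l j i (y i) + l j i b := by
  unfold L
  rw [← Finset.add_sum_erase univ _ (mem_univ i), ← Finset.add_sum_erase univ
    (fun k => l j k (y k)) (mem_univ i)]
  have h : ∑ k ∈ univ.erase i, l j k (Function.update y i b k) =
      ∑ k ∈ univ.erase i, l j k (y k) := by
    refine Finset.sum_congr rfl fun k hk => ?_
    rw [Function.update_of_ne (Finset.ne_of_mem_erase hk)]
  rw [h, Function.update_self]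
  ring

theorem Core_dist_update {s : ℕ} (c y : ι → Fin s → Bool) (i : ι) (b : Fin s → Bool)
    (hb : hammingDist (c i) b < hammingDist (c i) (y i)) :
    ∑ k, hammingDist (c k) (Function.update y i b k) < ∑ k, hammingDist (c k) (y k) := by
  rw [← Finset.add_sum_erase univ _ (mem_univ i), ← Finset.add_sum_erase univ
    (fun k => hammingDist (c k) (y k)) (mem_univ i)]
  have h : ∑ k ∈ univ.erase i, hammingDist (c k) (Function.update y i b k) =
      ∑ k ∈ univ.erase i, hammingDist (c k) (y k) := by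
    refine Finset.sum_congr rfl fun k hk => ?_
    rw [Function.update_of_ne (Finset.ne_of_mem_erase hk)]
  rw [h, Function.update_self]
  omega

/-- Every move that lowers the distance leaves the polytope of the short facets. -/
theorem Core_ex [Nonempty ι] {s : ℕ} (l : J → ι → (Fin s → Bool) → ℤ) (Lam : ℕ)
    (hl : ∀ j i a b, |l j i a - l j i b| ≤ Lam) (c : ι → Fin s → Bool) (t : J → ℤ) (tau : ℕ)
    (hin : ∀ y : ι → Fin s → Bool, (∀ j, L l j y ≤ t j) → tau ≤ ∑ i, hammingDist (c i) (y i))
    (T : List J) (Sh : J → Prop) (y : ι → Fin s → Bool)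
    (hy : ∑ i, hammingDist (c i) (y i) = tau) (hSh : ∀ j, L l j y + Lam ≤ t j ∨ Sh j)
    (hdec : (Fintype.card ι : ℝ) / 32 ≤ ∑ i, dec l T c i (y i)) :
    (1 : ℝ) / 32 ≤ ex l T Sh t y := by
  have hq : (0 : ℝ) < Fintype.card ι := by exact_mod_cast Fintype.card_pos
  have key : 𝔼 i, dec l T c i (y i) ≤ ex l T Sh t y := by
    unfold ex
    refine Finset.expect_le_expect fun i _ => ?_
    unfold dec
    refine Finset.sum_le_sum fun b _ => ?_
    refine mul_le_mul_of_nonneg_left ?_ (ker_nonneg l T i (y i) b)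
    by_cases hb : hammingDist (c i) b < hammingDist (c i) (y i)
    · rw [if_pos hb, if_neg]
      intro hall
      have hK : ∀ j, L l j (Function.update y i b) ≤ t j := by
        intro j
        rcases hSh j with hj | hj
        · rw [Core_L_update]
          have := (abs_le.mp (hl j i b (y i))).2
          linarith
        · exact hall j hj
      have h1 := hin _ hK
      have h2 := Core_dist_update c y i b hb
      omega
    · rw [if_neg hb]
      split_ifs <;> norm_num
  refine le_trans ?_ key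
  rw [Finset.expect_eq_sum_div_card, Finset.card_univ, le_div_iff₀ hq]
  linarith

theorem Core_dis [Fintype J] {G U : Type} [Fintype G] [Fintype U] [DecidableEq G] [DecidableEq U]
    [Nonempty G] [Nonempty U] (l : J → G × U → A → ℤ) (K : ℕ) (hK : Fintype.card J ≤ K)
    (T : List J) :
    dens (fun y : G × U → A => ∃ j ∈ (univ.filter fun j => Nn l T j < (Fintype.card U : ℝ) / 8),
        (Fintype.card U : ℝ) / 4 < ∑ i, dis l T j i (y i)) ≤
      K * Real.exp (-((Fintype.card U : ℝ) / (128 * Fintype.card G))) := by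
  have hG : (0 : ℝ) < Fintype.card G := by exact_mod_cast Fintype.card_pos
  have hU : (0 : ℝ) < Fintype.card U := by exact_mod_cast Fintype.card_pos
  refine le_trans (dens_exists _ fun j (y : G × U → A) =>
    (Fintype.card U : ℝ) / 4 < ∑ i, dis l T j i (y i)) ?_
  have hone : ∀ j ∈ (univ.filter fun j => Nn l T j < (Fintype.card U : ℝ) / 8),
      dens (fun y : G × U → A => (Fintype.card U : ℝ) / 4 < ∑ i, dis l T j i (y i)) ≤
        Real.exp (-((Fintype.card U : ℝ) / (128 * Fintype.card G))) := by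
    intro j hj
    have hj' : Nn l T j < (Fintype.card U : ℝ) / 8 := (Finset.mem_filter.mp hj).2
    have hH := hoeff_up (ι := G × U) (fun i a => dis l T j i a) 1 ((Fintype.card U : ℝ) / 8)
      one_pos (by positivity) (fun i a b => by
        have h1 := dis_nonneg l T j i a
        have h2 := dis_le_one l T j i a
        have h3 := dis_nonneg l T j i b
        have h4 := dis_le_one l T j i b
        rw [abs_le]
        constructor <;> linarith)
    have he : ((Fintype.card U : ℝ) / 8) ^ 2 / (2 * Fintype.card (G × U) * 1 ^ 2) =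
        (Fintype.card U : ℝ) / (128 * Fintype.card G) := by
      rw [Fintype.card_prod]
      push_cast
      field_simp
      ring
    rw [he] at hH
    refine le_trans (dens_mono fun y hy => ?_) hH
    unfold Nn at hj'
    linarith
  refine le_trans (Finset.sum_le_sum hone) ?_
  rw [Finset.sum_const, nsmul_eq_mul]
  refine mul_le_mul_of_nonneg_right ?_ (Real.exp_pos _).le
  have h1 : (univ.filter fun j => Nn l T j < (Fintype.card U : ℝ) / 8).card ≤ K :=
    le_trans (Finset.card_le_univ _) hK
  exact_mod_cast h1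

theorem Core_dec [Nonempty ι] {s : ℕ} (l : J → ι → (Fin s → Bool) → ℤ) (c : ι → Fin s → Bool)
    (T : List J) (hc : (Fintype.card ι : ℝ) / 16 ≤ ∑ i, 𝔼 a, dec l T c i a) :
    dens (fun y : ι → Fin s → Bool => ∑ i, dec l T c i (y i) < (Fintype.card ι : ℝ) / 32) ≤
      Real.exp (-((Fintype.card ι : ℝ) / 2048)) := by
  have hq : (0 : ℝ) < Fintype.card ι := by exact_mod_cast Fintype.card_pos
  have hH := hoeff_low (ι := ι) (fun i a => dec l T c i a) 1 ((Fintype.card ι : ℝ) / 32)
    one_pos (by positivity) (fun i a b => by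
      have h1 := dec_nonneg l T c i a
      have h2 := dec_le_one l T c i a
      have h3 := dec_nonneg l T c i b
      have h4 := dec_le_one l T c i b
      rw [abs_le]
      constructor <;> linarith)
  have he : ((Fintype.card ι : ℝ) / 32) ^ 2 / (2 * Fintype.card ι * 1 ^ 2) =
      (Fintype.card ι : ℝ) / 2048 := by
    field_simp
    ring
  rw [he] at hH
  refine le_trans (dens_mono fun y hy => ?_) hH
  linarith

theorem core [Fintype J] {G U : Type} [Fintype G] [Fintype U] [DecidableEq G] [DecidableEq U]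
    [Nonempty G] [Nonempty U] {s : ℕ} (l : J → G × U → (Fin s → Bool) → ℤ) (Lam h K b : ℕ) (r : ℝ)
    (hLam : 1 ≤ Lam) (hh : 1 ≤ h) (hK : Fintype.card J ≤ K) (hK1 : 1 ≤ K)
    (hl : ∀ j i a b, |l j i a - l j i b| ≤ Lam)
    (h0 : 0 < r) (h1 : r ≤ 1 / 24) (hq : 144 * Fintype.card (G × U) * r ^ 2 ≤ 1)
    (hgam : (2 * h * Lam : ℝ) / √(r / 6 * (Fintype.card U / 8) / 4) ≤ 1)
    (hb : (b : ℝ) ≤ Fintype.card G / 128)
    (c : G × U → Fin s → Bool)
    (hc : ∀ T : List J, T.length ≤ h →
      (Fintype.card (G × U) : ℝ) / 16 ≤ ∑ i, 𝔼 a, dec l T c i a)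
    (t : J → ℤ) (tau : ℕ)
    (hin : ∀ y : G × U → Fin s → Bool, (∀ j, L l j y ≤ t j) → tau ≤ ∑ i, hammingDist (c i) (y i)) :
    dens (fun y : G × U → Fin s → Bool =>
        (∀ j, L l j y ≤ t j) ∧ ∑ i, hammingDist (c i) (y i) = tau) ≤
      Real.exp 3 * (((2 * h * Lam : ℝ) / √(r / 6 * (Fintype.card U / 8) / 4)) ^ h +
          h * Real.exp (-(r / 6 * (Fintype.card U / 8) / 4))) +
        ((h + 1) * K ^ h : ℕ) *
          (Real.exp (-(1 / (1152 * Fintype.card (G × U) * r ^ 2))) + 64 * (1 / 2) ^ b +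
            K * Real.exp (-((Fintype.card U : ℝ) / (128 * Fintype.card G))) +
            Real.exp (-((Fintype.card (G × U) : ℝ) / 2048))) := by
  have hU : (0 : ℝ) < Fintype.card U := by exact_mod_cast Fintype.card_pos
  obtain ⟨S, hS, hScard⟩ := exists_lists (J := J) h K hK hK1
  have hnh := nh l t Lam h K r ((Fintype.card U : ℝ) / 8) hLam hh hK hK1 hl h0 h1 hq
    (by positivity) hgam
  -- the three bad events attached to a list
  let E1 : List J → (G × U → Fin s → Bool) → Prop := fun T z =>
    (∀ j, Nn l T j < (Fintype.card U : ℝ) / 8 → L l j z ≤ t j) ∧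
      (1 : ℝ) / 32 ≤ ex l T (fun j => Nn l T j < (Fintype.card U : ℝ) / 8) t z ∧
        ∀ j, Nn l T j < (Fintype.card U : ℝ) / 8 → ∑ i, dis l T j i (z i) ≤ Fintype.card U / 4
  let E2 : List J → (G × U → Fin s → Bool) → Prop := fun T y =>
    ∃ j ∈ (univ.filter fun j => Nn l T j < (Fintype.card U : ℝ) / 8),
      (Fintype.card U : ℝ) / 4 < ∑ i, dis l T j i (y i)
  let E3 : List J → (G × U → Fin s → Bool) → Prop := fun T y =>
    ∑ i, dec l T c i (y i) < (Fintype.card (G × U) : ℝ) / 32
  have hcover : ∀ y : G × U → Fin s → Bool,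
      ((∀ j, L l j y ≤ t j) ∧ ∑ i, hammingDist (c i) (y i) = tau) →
      ((∀ j, L l j y ≤ t j) ∧ ∃ T : List J, T.length = h ∧
          Long l ((Fintype.card U : ℝ) / 8) T ∧ ∀ j ∈ T, t j < L l j y + Lam) ∨
        ∃ T ∈ S.filter (fun T => T.length ≤ h), (E1 T y ∨ E2 T y) ∨ E3 T y := by
    rintro y ⟨hy1, hy2⟩
    by_cases hN : ∃ T : List J, T.length = h ∧
        Long l ((Fintype.card U : ℝ) / 8) T ∧ ∀ j ∈ T, t j < L l j y + Lam
    · exact Or.inl ⟨hy1, hN⟩
    · right
      obtain ⟨T, hT, hTj⟩ := greedy l t Lam h _ y hN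
      refine ⟨T, Finset.mem_filter.mpr ⟨hS T hT, hT⟩, ?_⟩
      by_cases h3 : E3 T y
      · exact Or.inr h3
      · left
        by_cases h2 : E2 T y
        · exact Or.inr h2
        · left
          refine ⟨fun j _ => hy1 j, ?_, fun j hj => ?_⟩
          · exact Core_ex l Lam hl c t tau hin T _ y hy2 hTj (not_lt.mp h3)
          · by_contra hcon
            exact h2 ⟨j, Finset.mem_filter.mpr ⟨mem_univ j, hj⟩, not_le.mp hcon⟩
  have hone : ∀ T ∈ S.filter (fun T => T.length ≤ h),
      dens (fun y => (E1 T y ∨ E2 T y) ∨ E3 T y) ≤ 64 * (1 / 2) ^ b +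
        K * Real.exp (-((Fintype.card U : ℝ) / (128 * Fintype.card G))) +
        Real.exp (-((Fintype.card (G × U) : ℝ) / 2048)) := by
    intro T hT
    have hT' : T.length ≤ h := (Finset.mem_filter.mp hT).2
    have a1 : dens (E1 T) ≤ 2 / (1 / 32) * (1 / 2) ^ b :=
      s_lemma l T (fun j => Nn l T j < (Fintype.card U : ℝ) / 8) t (1 / 32) (by norm_num) b
        (by linarith)
    have a2 : dens (E2 T) ≤ K * Real.exp (-((Fintype.card U : ℝ) / (128 * Fintype.card G))) :=
      Core_dis l K hK T
    have a3 : dens (E3 T) ≤ Real.exp (-((Fintype.card (G × U) : ℝ) / 2048)) :=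
      Core_dec l c T (hc T hT')
    have b1 := dens_or (fun y => E1 T y ∨ E2 T y) (E3 T)
    have b2 := dens_or (E1 T) (E2 T)
    have e : (2 : ℝ) / (1 / 32) = 64 := by norm_num
    rw [e] at a1
    linarith
  have hsum := le_trans (dens_exists (S.filter (fun T => T.length ≤ h))
    (fun T y => (E1 T y ∨ E2 T y) ∨ E3 T y)) (Finset.sum_le_sum hone)
  rw [Finset.sum_const, nsmul_eq_mul] at hsum
  have hcard : (((S.filter (fun T => T.length ≤ h)).card : ℕ) : ℝ) ≤ ((h + 1) * K ^ h : ℕ) := by
    exact_mod_cast le_trans (Finset.card_filter_le _ _) hScard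
  have hpos : (0 : ℝ) ≤ 64 * (1 / 2) ^ b +
      K * Real.exp (-((Fintype.card U : ℝ) / (128 * Fintype.card G))) +
      Real.exp (-((Fintype.card (G × U) : ℝ) / 2048)) := by positivity
  have hsum' := le_trans hsum (mul_le_mul_of_nonneg_right hcard hpos)
  have hfin := le_trans (dens_mono hcover) (dens_or _ _)
  linarith

end Pool.Agent.P.MP_a54059_lc.PT
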