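import Mathlib

/-!
Definitions for the lower bound on unions of polytopes with small integer weights.
`J` indexes the facets, `ι` the parts, `A` is the alphabet of a part.
-/

namespace Pool.Agent.P.MP_a54059_lc.PT

open Finset
open scoped BigOperators Classical

noncomputable section

variable {J ι A : Type} [Fintype ι] [DecidableEq ι] [Fintype A] [DecidableEq A]

/-- The additive form of facet `j`. -/
def L (l : J → ι → A → ℤ) (j : J) (y : ι → A) : ℤ := ∑ i, l j i (y i)

/-- The class of `a` in part `i`: the letters on which all facets of `T` take the same value. -/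
def cls (l : J → ι → A → ℤ) (T : List J) (i : ι) (a : A) : Finset A :=
  univ.filter fun b => ∀ j ∈ T, l j i b = l j i a

/-- Uniform resampling inside the class. -/
def ker (l : J → ι → A → ℤ) (T : List J) (i : ι) (a b : A) : ℝ :=
  if b ∈ cls l T i a then 1 / ((cls l T i a).card : ℝ) else 0

/-- Chance that resampling inside the class changes the value of facet `j`. -/
def dis (l : J → ι → A → ℤ) (T : List J) (j : J) (i : ι) (a : A) : ℝ :=
  ∑ b, ker l T i a b * (if l j i b = l j i a then 0 else 1)

/-- Length of facet `j` modulo `T`. -/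
def Nn (l : J → ι → A → ℤ) (T : List J) (j : J) : ℝ := ∑ i, 𝔼 a, dis l T j i a

/-- Every facet of the list is long modulo the later ones. -/
def Long (l : J → ι → A → ℤ) (N : ℝ) : List J → Prop
  | [] => True
  | j :: T => Long l N T ∧ N ≤ Nn l T j

/-- The penalty. -/
def phi (lam : ℝ) (s : ℤ) : ℝ := if 0 ≤ s then Real.exp (-(lam * s)) else 0

/-- Density of an event in a finite uniform space. -/
def dens {Ω : Type} [Fintype Ω] (P : Ω → Prop) : ℝ := 𝔼 y, if P y then (1 : ℝ) else 0

/-- Lazy resampling kernel of rate `r`. -/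
def lz (r : ℝ) (a b : A) : ℝ := (if a = b then 1 - r else 0) + r / Fintype.card A

/-- Normaliser of the backward tilted kernel. -/
def Zm (r : ℝ) (th : A → ℝ) (b : A) : ℝ := ∑ a, lz r b a * Real.exp (th b - th a)

/-- Backward tilted kernel. -/
def kt (r : ℝ) (th : A → ℝ) (b a : A) : ℝ := lz r b a * Real.exp (th b - th a) / Zm r th b

/-- Column sums of the backward tilted kernel. -/
def Zt (r : ℝ) (th : A → ℝ) (a : A) : ℝ := ∑ b, kt r th b a

/-- Chance that a class move in a uniform part leaves the polytope cut out by the facets in `Sh`. -/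
def ex (l : J → ι → A → ℤ) (T : List J) (Sh : J → Prop) (t : J → ℤ) (z : ι → A) : ℝ :=
  𝔼 i, ∑ b, ker l T i (z i) b *
    (if ∀ j, Sh j → L l j (Function.update z i b) ≤ t j then 0 else 1)

/-- Apply the moves of the groups in `e`. -/
def mv {G U : Type} [DecidableEq G] [DecidableEq U] (z : G × U → A) (u : G → U) (w : G → A) (e : Finset G) : G × U → A :=
  fun i => if i.1 ∈ e ∧ i.2 = u i.1 then w i.1 else z i

/-- Group `g` is good: its move violates a facet of `Sh` that no other move changes. -/
def Good {G U : Type} [Fintype G] [Fintype U] [DecidableEq G] [DecidableEq U]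
    (l : J → G × U → A → ℤ) (Sh : J → Prop) (t : J → ℤ) (z : G × U → A) (u : G → U) (w : G → A) (g : G) : Prop :=
  ∃ j, Sh j ∧ t j < L l j (mv z u w {g}) ∧
    ∀ g', g' ≠ g → l j (g', u g') (w g') = l j (g', u g') (z (g', u g'))

/-- Chance that a class move lowers the distance to `c i`. -/
def dec {s : ℕ} (l : J → ι → (Fin s → Bool) → ℤ) (T : List J) (c : ι → Fin s → Bool) (i : ι)
    (a : Fin s → Bool) : ℝ :=
  ∑ b, ker l T i a b * (if hammingDist (c i) b < hammingDist (c i) a then 1 else 0)

end

end Pool.Agent.P.MP_a54059_lc.PT
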