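import Pool.Agent.P.MP_a54059_lc.PT.Reduce

/-!
Both alternations.  For AND of OR complement `y`.
-/

namespace Pool.Agent.P.MP_a54059_lc.PT

open Finset

theorem pi_bound (k n t W M m : ℕ) (hk : 10 ^ 6 ≤ k) (hW : 1 ≤ W) (hW2 : W ≤ 2 ^ k)
    (hn : k ^ 30 * W ^ 4 ≤ n) (ht1 : n ≤ 2 * t) (ht2 : 2 * t ≤ n + 2)
    (β : Fin M → Fin m → Fin n → ℤ) (τ : Fin M → Fin m → (Fin n → Bool) → ℤ)
    (hβ : ∀ i j v, |β i j v| ≤ W)
    (hf : ∀ x y : Fin n → Bool, t ≤ hammingDist x y ↔
      ∀ i, ∃ j, ∑ v, (if y v then β i j v else 0) ≤ τ i j x) :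
    2 ^ k < M * m := by
  have hk1 : 1 ≤ k := le_trans (by norm_num) hk
  have hn2 : 2 ≤ n := by
    have h1 : 2 ≤ k := le_trans (by norm_num) hk
    have h2 : k ≤ k ^ 30 := Nat.le_self_pow (by norm_num) k
    have h3 : 1 ≤ W ^ 4 := Nat.one_le_pow _ _ hW
    nlinarith
  refine sigma_bound k n (n - t + 1) W M m hk hW hW2 hn (by omega) (by omega) β
    (fun i j x => ∑ v, β i j v - τ i j x - 1) hβ fun x y => ?_
  have h1 := not_congr (hf x fun v => !y v)
  have h2 : hammingDist x (fun v => !y v) + hammingDist x y = n := by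
    unfold hammingDist
    have : (univ.filter fun v => x v ≠ !y v) = univ.filter fun v => ¬ (x v ≠ y v) := by
      refine filter_congr fun v _ => ?_
      cases x v <;> cases y v <;> simp
    rw [this, add_comm, card_filter_add_card_filter_not]
    simp
  have h3 : (¬ t ≤ hammingDist x fun v => !y v) ↔ n - t + 1 ≤ hammingDist x y := by omega
  rw [← h3, h1]
  simp only [not_forall, not_exists, not_le]
  refine exists_congr fun i => forall_congr' fun j => ?_
  have h4 : ∑ v, (if (!y v) = true then β i j v else 0) + ∑ v, (if y v = true then β i j v else 0)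
      = ∑ v, β i j v := by
    rw [← sum_add_distrib]
    refine sum_congr rfl fun v _ => ?_
    cases y v <;> simp
  omega

end Pool.Agent.P.MP_a54059_lc.PT
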