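import Pool.Agent.P.MP_a54059_lc.PT.Basic

/-!
Littlewood-Offord bound.  Point bound by Sperner (`IsAntichain.sperner`): fix the subset off the
support of `D`, complement it on the negative indices; the subsets with a given sum form an
antichain.  Central binomial: `C(e, e/2) / 2^e ≤ 1 / √(e+1)` (induction for even `e`; for odd `e`
use `2 * C(2k+1, k) = C(2k+2, k+1)`).  Then sum `exp (-lam v)` over `v ≥ 0`: at most `2 / lam`.
-/

namespace Pool.Agent.P.MP_a54059_lc.PT

open Finset
open scoped BigOperators Classical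

variable {J ι A : Type} [Fintype ι] [DecidableEq ι] [Fintype A] [DecidableEq A] [Nonempty A]

theorem LO_central (k : ℕ) : k.centralBinom ^ 2 * (2 * k + 1) ≤ 16 ^ k := by
  induction k with
  | zero => simp
  | succ k ih =>
    have h := Nat.succ_mul_centralBinom_succ k
    refine Nat.le_of_mul_le_mul_left (c := (k + 1) ^ 2) ?_ (by positivity)
    calc (k + 1) ^ 2 * ((k + 1).centralBinom ^ 2 * (2 * (k + 1) + 1))
        = ((k + 1) * (k + 1).centralBinom) ^ 2 * (2 * k + 3) := by ring
      _ = 4 * ((2 * k + 1) * (2 * k + 3)) * (k.centralBinom ^ 2 * (2 * k + 1)) := by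
        rw [h]; ring
      _ ≤ 4 * (4 * (k + 1) ^ 2) * 16 ^ k :=
        Nat.mul_le_mul (Nat.mul_le_mul_left _ (by nlinarith)) ih
      _ = _ := by ring

theorem LO_choose (e : ℕ) : e.choose (e / 2) ^ 2 * (e + 1) ≤ (2 ^ e) ^ 2 := by
  obtain ⟨k, rfl | rfl⟩ := Nat.even_or_odd' e
  · have := LO_central k
    rw [Nat.mul_div_cancel_left _ two_pos, ← Nat.centralBinom_eq_two_mul_choose, ← pow_mul,
      show 2 * k * 2 = 4 * k by ring, pow_mul]
    exact this
  · have h := LO_central (k + 1)
    have e1 : (k + 1).centralBinom = 2 * (2 * k + 1).choose k := by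
      rw [Nat.centralBinom_eq_two_mul_choose, show 2 * (k + 1) = 2 * k + 1 + 1 by ring,
        Nat.choose_succ_succ', Nat.choose_symm_half, two_mul ((2 * k + 1).choose k)]
    have e2 : (16 : ℕ) ^ (k + 1) = 4 * (2 ^ (2 * k + 1)) ^ 2 := by
      rw [← pow_mul, show (2 * k + 1) * 2 = 4 * k + 2 by ring, pow_add, pow_add, pow_mul]
      ring
    rw [e1, e2] at h
    rw [show (2 * k + 1) / 2 = k by omega]
    nlinarith

theorem LO_point (D : ι → ℤ) (v : ℤ) :
    (univ.filter fun S : Finset ι => ∑ i ∈ S, D i = v).card ≤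
      2 ^ (univ.filter fun i => D i = 0).card *
        (Fintype.card {i // D i ≠ 0}).choose (Fintype.card {i // D i ≠ 0} / 2) := by
  have anti : ∀ w : ℤ, IsAntichain (· ⊆ ·)
      ((univ.filter fun T : Finset {i // D i ≠ 0} => ∑ i ∈ T, |D i.1| = w :
        Finset (Finset {i // D i ≠ 0})) : Set (Finset {i // D i ≠ 0})) := by
    intro w T hT T' hT' hne hsub
    have h1 := (mem_filter.1 (mem_coe.1 hT)).2
    have h2 := (mem_filter.1 (mem_coe.1 hT')).2
    obtain ⟨i, hi, hi'⟩ := exists_of_ssubset (hsub.ssubset_of_ne hne)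
    have := sum_lt_sum_of_subset (f := fun i : {i // D i ≠ 0} => |D i.1|) hsub hi hi'
      (abs_pos.2 i.2) fun j _ _ => abs_nonneg _
    omega
  have hs := (anti (v + ∑ i : {i // D i ≠ 0}, max (-D i.1) 0)).sperner
  refine le_trans ?_ (Nat.mul_le_mul_left _ hs)
  rw [← card_powerset, ← card_product]
  refine card_le_card_of_injOn (fun S => (S.filter fun i => D i = 0,
    univ.filter fun i : {i // D i ≠ 0} => (i.1 ∈ S ↔ 0 < D i.1))) (fun S hS => ?_)
    fun S _ S' _ h => ?_
  · have h1 := (mem_filter.1 (mem_coe.1 hS)).2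
    refine mem_coe.2 (mem_product.2 ⟨mem_powerset.2 (filter_subset_filter _ (subset_univ _)),
      mem_filter.2 ⟨mem_univ _, ?_⟩⟩)
    have h2 := Fintype.sum_subtype_add_sum_subtype (fun i => D i ≠ 0)
      fun i => if i ∈ S then D i else 0
    have h3 : ∑ i : {i // ¬D i ≠ 0}, (if i.1 ∈ S then D i.1 else 0) = 0 :=
      sum_eq_zero fun i _ => by rw [not_not.1 i.2, ite_self]
    rw [h3, add_zero, sum_ite_mem, univ_inter, h1] at h2
    rw [sum_filter, ← h2, ← sum_add_distrib]
    refine sum_congr rfl fun i _ => ?_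
    rcases lt_or_gt_of_ne i.2 with h | h
    · rw [abs_of_neg h, max_eq_left (by omega)]
      by_cases hi : i.1 ∈ S <;> simp [hi, h.le]
    · rw [abs_of_pos h, max_eq_right (by omega)]
      by_cases hi : i.1 ∈ S <;> simp [hi, h]
  · ext i
    by_cases hi : D i = 0
    · have := Finset.ext_iff.1 (congrArg Prod.fst h) i
      simpa [hi] using this
    · have := Finset.ext_iff.1 (congrArg Prod.snd h) ⟨i, hi⟩
      simp only [mem_filter, mem_univ, true_and] at this
      tauto

theorem LO_geom {lam : ℝ} (h0 : 0 < lam) (h1 : lam ≤ 1) (V : Finset ℤ) :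
    ∑ v ∈ V, phi lam v ≤ 2 / lam := by
  have q0 := Real.exp_pos (-lam)
  have q1 : Real.exp (-lam) ≤ 1 - lam / 2 := by
    have := Real.add_one_le_exp lam
    rw [Real.exp_neg, inv_le_comm₀ (Real.exp_pos _) (by linarith), inv_eq_one_div,
      div_le_iff₀ (by linarith)]
    nlinarith
  have e : ∑ v ∈ V, phi lam v =
      ∑ k ∈ (V.filter fun v => 0 ≤ v).image Int.toNat, Real.exp (-lam) ^ k := by
    rw [sum_image fun a ha b hb h => by
      have := (mem_filter.1 (mem_coe.1 ha)).2
      have := (mem_filter.1 (mem_coe.1 hb)).2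
      omega, sum_filter]
    refine sum_congr rfl fun v _ => ?_
    rw [phi]
    split_ifs with h
    · obtain ⟨n, rfl⟩ := Int.eq_ofNat_of_zero_le h
      rw [← Real.exp_nat_mul]
      congr 1
      simp [mul_comm]
    · rfl
  rw [e]
  refine ((summable_geometric_of_lt_one q0.le (by linarith)).sum_le_tsum _
    fun k _ => by positivity).trans ?_
  rw [tsum_geometric_of_lt_one q0.le (by linarith), inv_eq_one_div,
    div_le_div_iff₀ (by linarith) h0]
  linarith

theorem lo_phi (D : ι → ℤ) (c : ℤ) (lam : ℝ) (h0 : 0 < lam) (h1 : lam ≤ 1) :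
    𝔼 S : Finset ι, phi lam (c + ∑ i ∈ S, D i) ≤
      (2 / lam) / √(((univ.filter fun i => D i ≠ 0).card : ℝ) + 1) := by
  obtain ⟨e, he⟩ : ∃ e, e = (univ.filter fun i => D i ≠ 0).card := ⟨_, rfl⟩
  obtain ⟨z, hz⟩ : ∃ z, z = (univ.filter fun i => D i = 0).card := ⟨_, rfl⟩
  have hn : Fintype.card ι = z + e := by
    rw [hz, he, card_filter_add_card_filter_not, card_univ]
  have hB : ∀ v : ℤ, ((univ.filter fun S : Finset ι => c + ∑ i ∈ S, D i = v).card : ℝ) ≤
      2 ^ z * e.choose (e / 2) := fun v => by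
    have := LO_point D (v - c)
    rw [Fintype.card_subtype, ← he, ← hz,
      filter_congr (q := fun S : Finset ι => c + ∑ i ∈ S, D i = v) fun S _ => by omega] at this
    exact_mod_cast this
  have h2 : ∑ S : Finset ι, phi lam (c + ∑ i ∈ S, D i) ≤ 2 ^ z * e.choose (e / 2) * (2 / lam) := by
    rw [sum_comp (phi lam) fun S : Finset ι => c + ∑ i ∈ S, D i]
    refine le_trans (sum_le_sum fun v _ => ?_) ((mul_sum _ _ _).symm.le.trans
      (mul_le_mul_of_nonneg_left (LO_geom h0 h1 _) (by positivity)))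
    rw [nsmul_eq_mul]
    exact mul_le_mul_of_nonneg_right (hB v) (phi_nonneg lam v)
  have h3 : (e.choose (e / 2) : ℝ) * √((e : ℝ) + 1) ≤ 2 ^ e := by
    refine (sq_le_sq₀ (by positivity) (by positivity)).1 ?_
    rw [mul_pow, Real.sq_sqrt (by positivity)]
    exact_mod_cast LO_choose e
  rw [← he, Fintype.expect_eq_sum_div_card, Fintype.card_finset, hn,
    div_le_div_iff₀ (by positivity) (by positivity)]
  push_cast
  calc _ ≤ 2 ^ z * e.choose (e / 2) * (2 / lam) * √((e : ℝ) + 1) := by gcongr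
    _ = 2 / lam * (2 ^ z * (e.choose (e / 2) * √((e : ℝ) + 1))) := by ring
    _ ≤ 2 / lam * (2 ^ z * 2 ^ e) := by gcongr
    _ = _ := by rw [pow_add]

end Pool.Agent.P.MP_a54059_lc.PT
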