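import Pool.Agent.P.MP_a54059_lc.PT.Basic

/-!
A middle level of the cube has density at least `1 / (2 (n + 1))`.
-/

namespace Pool.Agent.P.MP_a54059_lc.PT

open Finset
open scoped BigOperators Classical

variable {J ι A : Type} [Fintype ι] [DecidableEq ι] [Fintype A] [DecidableEq A] [Nonempty A]

theorem Level_mid (n : ℕ) : 2 ^ n ≤ (n + 1) * n.choose (n / 2) := by
  rw [← Nat.sum_range_choose]
  calc ∑ m ∈ range (n + 1), n.choose m ≤ ∑ _m ∈ range (n + 1), n.choose (n / 2) :=
        Finset.sum_le_sum fun m _ => Nat.choose_le_middle m n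
    _ = (n + 1) * n.choose (n / 2) := by simp

theorem Level_choose (n tau : ℕ) (hn : 2 ≤ n) (h1 : n ≤ 2 * tau) (h2 : 2 * tau ≤ n + 2) :
    2 ^ n ≤ 2 * (n + 1) * n.choose tau := by
  have hm := Level_mid n
  have key : n.choose (n / 2) ≤ 2 * n.choose tau := by
    rcases Nat.even_or_odd' n with ⟨m, rfl | rfl⟩
    · have e : 2 * m / 2 = m := by omega
      rw [e]
      have : tau = m ∨ tau = m + 1 := by omega
      rcases this with rfl | rfl
      · omega
      · have h := Nat.choose_succ_right_eq (2 * m) m
        have e2 : 2 * m - m = m := by omega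
        rw [e2] at h
        have hm1 : 1 ≤ m := by omega
        have h3 : (2 * m).choose m * (m + 1) ≤ 2 * (2 * m).choose (m + 1) * (m + 1) := by
          have : 2 * (2 * m).choose (m + 1) * (m + 1) = (2 * m).choose m * (2 * m) := by
            rw [mul_assoc, h]; ring
          rw [this]
          exact Nat.mul_le_mul_left _ (by omega)
        exact Nat.le_of_mul_le_mul_right h3 (by omega)
    · have e : (2 * m + 1) / 2 = m := by omega
      rw [e]
      have : tau = m + 1 := by omega
      subst this
      rw [Nat.choose_symm_half]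
      omega
  calc 2 ^ n ≤ (n + 1) * n.choose (n / 2) := hm
    _ ≤ (n + 1) * (2 * n.choose tau) := Nat.mul_le_mul_left _ key
    _ = 2 * (n + 1) * n.choose tau := by ring

theorem Level_count {s : ℕ} (c : ι → Fin s → Bool) (tau : ℕ) :
    (Fintype.card ι * s).choose tau ≤
      (univ.filter fun y : ι → Fin s → Bool => ∑ i, hammingDist (c i) (y i) = tau).card := by
  have hc : (Fintype.card ι * s).choose tau =
      (powersetCard tau (univ : Finset (ι × Fin s))).card := by
    rw [card_powersetCard]; simp
  rw [hc]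
  refine Finset.card_le_card_of_injOn
    (fun S i k => if (i, k) ∈ S then !c i k else c i k) ?_ ?_
  · intro S hS
    rw [Finset.mem_coe, mem_powersetCard] at hS
    rw [Finset.mem_coe, mem_filter]
    refine ⟨mem_univ _, ?_⟩
    rw [← hS.2]
    have h1 : ∀ i, hammingDist (c i) (fun k => if (i, k) ∈ S then !c i k else c i k) =
        ∑ k : Fin s, if (i, k) ∈ S then 1 else 0 := by
      intro i
      unfold hammingDist
      rw [Finset.card_filter]
      refine Finset.sum_congr rfl fun k _ => ?_
      by_cases h : (i, k) ∈ S <;> simp [h]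
    rw [Finset.sum_congr rfl fun i _ => h1 i, ← Fintype.sum_prod_type']
    simp
  · intro S _ T _ h
    ext ⟨i, k⟩
    have := congrFun (congrFun h i) k
    by_cases h1 : (i, k) ∈ S <;> by_cases h2 : (i, k) ∈ T <;> simp_all

theorem level_dens {s : ℕ} (c : ι → Fin s → Bool) (tau : ℕ)
    (hn : 2 ≤ Fintype.card ι * s) (h1 : Fintype.card ι * s ≤ 2 * tau)
    (h2 : 2 * tau ≤ Fintype.card ι * s + 2) :
    1 / (2 * ((Fintype.card ι * s : ℕ) + 1 : ℝ)) ≤
      dens (fun y : ι → Fin s → Bool => ∑ i, hammingDist (c i) (y i) = tau) := by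
  have hA := Level_choose _ tau hn h1 h2
  have hB := Level_count c tau
  have hcard : Fintype.card (ι → Fin s → Bool) = 2 ^ (Fintype.card ι * s) := by
    simp only [Fintype.card_fun, Fintype.card_bool, Fintype.card_fin]
    rw [← pow_mul, mul_comm]
  have hd : dens (fun y : ι → Fin s → Bool => ∑ i, hammingDist (c i) (y i) = tau) =
      ((univ.filter fun y : ι → Fin s → Bool =>
        ∑ i, hammingDist (c i) (y i) = tau).card : ℝ) / 2 ^ (Fintype.card ι * s) := by
    unfold dens
    rw [Finset.expect_eq_sum_div_card, Finset.card_univ, hcard, Finset.card_filter]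
    push_cast
    refine congrArg (fun x : ℝ => x / 2 ^ (Fintype.card ι * s)) ?_
    refine Finset.sum_congr rfl fun y _ => ?_
    by_cases h : ∑ i, hammingDist (c i) (y i) = tau <;> simp [h]
  rw [hd, div_le_div_iff₀ (by positivity) (by positivity), one_mul]
  have h3 : 2 ^ (Fintype.card ι * s) ≤ 2 * (Fintype.card ι * s + 1) *
      (univ.filter fun y : ι → Fin s → Bool => ∑ i, hammingDist (c i) (y i) = tau).card :=
    hA.trans (Nat.mul_le_mul_left _ hB)
  have h4 : ((2 ^ (Fintype.card ι * s) : ℕ) : ℝ) ≤ ((2 * (Fintype.card ι * s + 1) *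
      (univ.filter fun y : ι → Fin s → Bool => ∑ i, hammingDist (c i) (y i) = tau).card : ℕ) : ℝ) :=
    Nat.cast_le.2 h3
  push_cast at h4 ⊢
  linarith

end Pool.Agent.P.MP_a54059_lc.PT
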