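import Pool.Agent.P.MP_a54059_lc.PT.AC
import Pool.Agent.P.MP_a54059_lc.PT.Arg

/-!
Points of the polytope with `h` near and long facets are rare (paper, section Nh).
For a list `T` take `th i a = lam * (T.map fun j => l j i a).sum` and
`pen y = (T.map fun j => phi lam (t j - L l j y)).prod`; apply `nh_core` to the points whose list
satisfies `-1 < ∑ i, (Zt r (th i) (y i) - 1)`, and `hoeff_low` (range `24 r`) to the others.
-/

namespace Pool.Agent.P.MP_a54059_lc.PT

open Finset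
open scoped BigOperators Classical

variable {J ι A : Type} [Fintype ι] [DecidableEq ι] [Fintype A] [DecidableEq A] [Nonempty A]

theorem Nh_exp {v : ℝ} (h : |v| ≤ 1 / 2) : Real.exp (v - v ^ 2) ≤ 1 + v := by
  obtain ⟨h1, h2⟩ := abs_le.1 h
  have h3 : 1 ≤ (1 + v) * Real.exp (v ^ 2 - v) := by
    rcases le_total 0 v with h4 | h4
    · have h5 := mul_le_mul_of_nonneg_left (Real.add_one_le_exp (v ^ 2 - v))
        (by linarith : 0 ≤ 1 + v)
      nlinarith [pow_nonneg h4 3]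
    · have h5 := mul_le_mul_of_nonneg_left
        (Real.quadratic_le_exp_of_nonneg (by nlinarith : 0 ≤ v ^ 2 - v)) (by linarith : 0 ≤ 1 + v)
      have h6 : 0 ≤ 1 + v - v ^ 2 + v ^ 3 := by
        nlinarith [mul_nonneg (neg_nonneg.2 h4) (by linarith : 0 ≤ v + 1 / 2), sq_nonneg v,
          mul_nonneg (sq_nonneg v) (by linarith : 0 ≤ v + 1 / 2)]
      nlinarith [mul_nonneg (sq_nonneg v) h6]
  have h4 : Real.exp (v ^ 2 - v) * Real.exp (v - v ^ 2) = 1 := by
    rw [← Real.exp_add, show v ^ 2 - v + (v - v ^ 2) = 0 by ring, Real.exp_zero]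
  have h5 := mul_le_mul_of_nonneg_right h3 (Real.exp_pos (v - v ^ 2)).le
  rw [one_mul, mul_assoc, h4, mul_one] at h5
  exact h5

omit [DecidableEq ι] in
theorem Nh_prod (Z : ι → ℝ) {r : ℝ} (h1 : r ≤ 1 / 24) (hq : 144 * Fintype.card ι * r ^ 2 ≤ 1)
    (hZ : ∀ i, |Z i - 1| ≤ 12 * r) (hs : -1 < ∑ i, (Z i - 1)) : Real.exp (-2) ≤ ∏ i, Z i := by
  have h2 : ∏ i, Real.exp (Z i - 1 - (Z i - 1) ^ 2) ≤ ∏ i, Z i :=
    Finset.prod_le_prod (fun i _ => (Real.exp_pos _).le) fun i _ =>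
      (Nh_exp ((hZ i).trans (by linarith))).trans (le_of_eq (by ring))
  refine le_trans ?_ h2
  rw [← Real.exp_sum, Finset.sum_sub_distrib]
  have h3 : ∑ i, (Z i - 1) ^ 2 ≤ ∑ _i : ι, (12 * r) ^ 2 :=
    Finset.sum_le_sum fun i _ => sq_le_sq' (abs_le.1 (hZ i)).1 (abs_le.1 (hZ i)).2
  rw [Finset.sum_const, Finset.card_univ, nsmul_eq_mul] at h3
  exact Real.exp_le_exp.2 (by linarith)

/-- the tilt attached to a list -/
noncomputable def Nh_th (l : J → ι → A → ℤ) (lam : ℝ) (T : List J) (i : ι) (a : A) : ℝ :=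
  lam * (T.map fun j => (l j i a : ℝ)).sum

omit [Fintype ι] [DecidableEq ι] [Fintype A] [DecidableEq A] [Nonempty A] in
theorem Nh_range (l : J → ι → A → ℤ) {lam : ℝ} (h0 : 0 ≤ lam) {Lam : ℕ}
    (hl : ∀ j i a b, |l j i a - l j i b| ≤ Lam) (T : List J) (i : ι) (a b : A) :
    |Nh_th l lam T i a - Nh_th l lam T i b| ≤ lam * (T.length * Lam) := by
  have h1 : |(T.map fun j => (l j i a : ℝ)).sum - (T.map fun j => (l j i b : ℝ)).sum| ≤
      T.length * Lam := by
    induction T with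
    | nil => simp
    | cons j T ih =>
      have h2 : |(l j i a : ℝ) - l j i b| ≤ Lam := by exact_mod_cast hl j i a b
      have h3 := abs_le.1 h2
      have h4 := abs_le.1 ih
      rw [List.map_cons, List.map_cons, List.sum_cons, List.sum_cons, List.length_cons,
        Nat.cast_succ]
      exact abs_le.2 ⟨by linarith [h3.1, h4.1], by linarith [h3.2, h4.2]⟩
  rw [Nh_th, Nh_th, ← mul_sub, abs_mul, abs_of_nonneg h0]
  exact mul_le_mul_of_nonneg_left h1 h0

omit [DecidableEq ι] [Fintype A] [DecidableEq A] [Nonempty A] in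
theorem Nh_cvx (l : J → ι → A → ℤ) (t : J → ℤ) {lam : ℝ} (h0 : 0 ≤ lam) (Lam : ℕ) (y0 y : ι → A)
    (hy : ∀ j, L l j y ≤ t j) (T : List J) (hT : ∀ j ∈ T, t j < L l j y0 + Lam) :
    Real.exp (-(∑ i, Nh_th l lam T i (y0 i))) ≤ Real.exp (lam * (T.length * Lam)) *
      Real.exp (-(∑ i, Nh_th l lam T i (y i))) * (T.map fun j => phi lam (t j - L l j y)).prod := by
  induction T with
  | nil => simp [Nh_th]
  | cons j T ih =>
    have h1 := ih fun k hk => hT k (List.mem_cons_of_mem _ hk)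
    have h2 : ∀ z : ι → A, ∑ i, Nh_th l lam (j :: T) i (z i) =
        lam * (L l j z : ℝ) + ∑ i, Nh_th l lam T i (z i) := fun z => by
      simp only [Nh_th, L, List.map_cons, List.sum_cons, mul_add, Finset.sum_add_distrib,
        Int.cast_sum, Finset.mul_sum]
    have h3 : (t j : ℝ) ≤ L l j y0 + Lam := by exact_mod_cast (hT j List.mem_cons_self).le
    have h4 : phi lam (t j - L l j y) = Real.exp (-(lam * (t j - L l j y))) := by
      rw [phi, if_pos (sub_nonneg.2 (hy j)), Int.cast_sub]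
    have h5 : Real.exp (-(lam * (L l j y0 : ℝ))) ≤
        Real.exp (lam * Lam) * Real.exp (-(lam * (L l j y : ℝ))) *
          Real.exp (-(lam * (t j - L l j y))) := by
      rw [← Real.exp_add, ← Real.exp_add]
      refine Real.exp_le_exp.2 ?_
      have := mul_le_mul_of_nonneg_left h3 h0
      linarith
    have h6 := mul_le_mul h5 h1 (Real.exp_pos _).le (by positivity)
    have h7 : lam * (((j :: T).length : ℝ) * Lam) = lam * Lam + lam * (T.length * Lam) := by
      rw [List.length_cons, Nat.cast_succ]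
      ring
    rw [h2, h2, h7, neg_add, neg_add, Real.exp_add, Real.exp_add, Real.exp_add, List.map_cons,
      List.prod_cons, h4]
    refine h6.trans (le_of_eq ?_)
    ring

theorem nh [Fintype J] (l : J → ι → A → ℤ) (t : J → ℤ) (Lam h K : ℕ) (r N : ℝ)
    (hLam : 1 ≤ Lam) (hh : 1 ≤ h) (hK : Fintype.card J ≤ K) (hK1 : 1 ≤ K)
    (hl : ∀ j i a b, |l j i a - l j i b| ≤ Lam)
    (h0 : 0 < r) (h1 : r ≤ 1 / 24) (hq : 144 * Fintype.card ι * r ^ 2 ≤ 1) (hN : 0 < N)
    (hgam : (2 * h * Lam : ℝ) / √(r / 6 * N / 4) ≤ 1) :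
    dens (fun y : ι → A => (∀ j, L l j y ≤ t j) ∧
        ∃ T : List J, T.length = h ∧ Long l N T ∧ ∀ j ∈ T, t j < L l j y + Lam) ≤
      Real.exp 3 * (((2 * h * Lam : ℝ) / √(r / 6 * N / 4)) ^ h + h * Real.exp (-(r / 6 * N / 4))) +
        ((h + 1) * K ^ h : ℕ) * Real.exp (-(1 / (1152 * Fintype.card ι * r ^ 2))) := by
  have hLam' : (1 : ℝ) ≤ Lam := by exact_mod_cast hLam
  have hh' : (1 : ℝ) ≤ h := by exact_mod_cast hh
  have hhL : (1 : ℝ) ≤ h * Lam := one_le_mul_of_one_le_of_one_le hh' hLam'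
  obtain ⟨lam, hlam⟩ : ∃ lam : ℝ, lam = 1 / (h * Lam) := ⟨_, rfl⟩
  have l0 : 0 < lam := by
    rw [hlam]
    positivity
  have l1 : lam ≤ 1 := by
    rw [hlam]
    exact (div_le_one (by linarith)).2 hhL
  have l2 : lam * (h * Lam) = 1 := by
    rw [hlam]
    field_simp
  have l3 : (2 * h * Lam : ℝ) = 2 / lam := by
    rw [hlam]
    field_simp
  rw [l3] at hgam ⊢
  have hr : ∀ T : List J, T.length = h → ∀ i a b,
      |Nh_th l lam T i a - Nh_th l lam T i b| ≤ 1 := fun T hT i a b => by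
    have h2 := Nh_range l l0.le hl T i a b
    rwa [hT, l2] at h2
  obtain ⟨S, hS, hSc⟩ := exists_lists (J := J) h K hK hK1
  let B : (ι → A) → Prop := fun y => (∀ j, L l j y ≤ t j) ∧
    ∃ T : List J, T.length = h ∧ Long l N T ∧ (∀ j ∈ T, t j < L l j y + Lam) ∧
      -1 < ∑ i, (Zt r (Nh_th l lam T i) (y i) - 1)
  let Bad : List J → (ι → A) → Prop := fun T y =>
    ∑ i, Zt r (Nh_th l lam T i) (y i) ≤ ∑ i, 𝔼 a, Zt r (Nh_th l lam T i) a - 1
  have hcov : ∀ y : ι → A, ((∀ j, L l j y ≤ t j) ∧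
      ∃ T : List J, T.length = h ∧ Long l N T ∧ ∀ j ∈ T, t j < L l j y + Lam) →
      B y ∨ ∃ T ∈ S.filter fun T => T.length = h, Bad T y := by
    rintro y ⟨a1, T, a2, a3, a4⟩
    by_cases a5 : -1 < ∑ i, (Zt r (Nh_th l lam T i) (y i) - 1)
    · exact Or.inl ⟨a1, T, a2, a3, a4, a5⟩
    · refine Or.inr ⟨T, Finset.mem_filter.2 ⟨hS T a2.le, a2⟩, ?_⟩
      have a6 : ∑ i, 𝔼 a, Zt r (Nh_th l lam T i) a = ∑ _i : ι, (1 : ℝ) :=
        Finset.sum_congr rfl fun i _ => Zt_mean h0.le h1 _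
      rw [Finset.sum_sub_distrib] at a5
      show _ ≤ _
      rw [a6]
      linarith
  have hbad : ∀ T ∈ S.filter fun T => T.length = h, dens (Bad T) ≤
      Real.exp (-(1 / (1152 * Fintype.card ι * r ^ 2))) := by
    intro T hT
    have a1 := (Finset.mem_filter.1 hT).2
    have a2 := hoeff_low (fun i a => Zt r (Nh_th l lam T i) a) (24 * r) 1 (by linarith) zero_le_one
      fun i a b => by
        have b1 := abs_le.1 (Zt_near h0.le h1 _ (hr T a1 i) a)
        have b2 := abs_le.1 (Zt_near h0.le h1 _ (hr T a1 i) b)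
        exact abs_le.2 ⟨by linarith [b1.1, b2.2], by linarith [b1.2, b2.1]⟩
    have a3 : (1 : ℝ) ^ 2 / (2 * Fintype.card ι * (24 * r) ^ 2) =
        1 / (1152 * Fintype.card ι * r ^ 2) := by
      rw [one_pow, show (2 : ℝ) * Fintype.card ι * (24 * r) ^ 2 = 1152 * Fintype.card ι * r ^ 2 by
        ring]
    rw [a3] at a2
    exact a2
  have hB : dens B ≤ Real.exp 3 *
      (((2 / lam) / √(r / 6 * N / 4)) ^ h + h * Real.exp (-(r / 6 * N / 4))) := by
    have hc : ∀ y : ι → A, ∃ T : List J, B y → T.length = h ∧ Long l N T ∧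
        (∀ j ∈ T, t j < L l j y + Lam) ∧ -1 < ∑ i, (Zt r (Nh_th l lam T i) (y i) - 1) := by
      intro y
      by_cases hy : B y
      · obtain ⟨T, hT⟩ := hy.2
        exact ⟨T, fun _ => hT⟩
      · exact ⟨[], fun h' => absurd h' hy⟩
    choose T hT using hc
    refine nh_core h0.le h1 B (fun y => Nh_th l lam (T y))
      (fun y0 y => ((T y0).map fun j => phi lam (t j - L l j y)).prod) _ (by positivity)
      (fun y hy => hr _ (hT y hy).1) (fun y0 y => ?_) (fun y hy => ?_) (fun y0 y hy0 hy => ?_)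
      fun y0 hy0 P hP hP1 => ?_
    · refine List.prod_nonneg fun x hx => ?_
      obtain ⟨j, -, rfl⟩ := List.mem_map.1 hx
      exact phi_nonneg _ _
    · exact Nh_prod _ h1 hq (fun i => Zt_near h0.le h1 _ (hr _ (hT y hy).1 i) _) (hT y hy).2.2.2
    · have a1 := Nh_cvx l t l0.le Lam y0 y hy.1 (T y0) (hT y0 hy0).2.2.1
      rwa [(hT y0 hy0).1, l2] at a1
    · have a1 := ac_all l t lam (r / 6) N l0 l1 (by linarith) hN hgam P hP hP1 (T y0)
        (hT y0 hy0).2.1
      rwa [(hT y0 hy0).1] at a1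
  have h2 := Finset.sum_le_card_nsmul _ _ _ hbad
  have h3 : (((S.filter fun T => T.length = h).card : ℕ) : ℝ) ≤ ((h + 1) * K ^ h : ℕ) := by
    exact_mod_cast (Finset.card_filter_le _ _).trans hSc
  rw [nsmul_eq_mul] at h2
  have h4 := mul_le_mul_of_nonneg_right h3
    (Real.exp_pos (-(1 / (1152 * Fintype.card ι * r ^ 2)))).le
  have h5 := dens_exists (S.filter fun T => T.length = h) Bad
  have h6 := (dens_mono hcov).trans (dens_or _ _)
  linarith

/-- The greedy list stops before length `h` outside the rare set. -/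
theorem greedy (l : J → ι → A → ℤ) (t : J → ℤ) (Lam h : ℕ) (N : ℝ) (y : ι → A)
    (hy : ¬ ∃ T : List J, T.length = h ∧ Long l N T ∧ ∀ j ∈ T, t j < L l j y + Lam) :
    ∃ T : List J, T.length ≤ h ∧ ∀ j, L l j y + Lam ≤ t j ∨ Nn l T j < N := by
  have key : ∀ n : ℕ, (∃ T : List J, T.length ≤ n ∧ ∀ j, L l j y + Lam ≤ t j ∨ Nn l T j < N) ∨
      ∃ T : List J, T.length = n ∧ Long l N T ∧ ∀ j ∈ T, t j < L l j y + Lam := by
    intro n
    induction n with
    | zero => exact Or.inr ⟨[], rfl, trivial, fun _ h => (nomatch h)⟩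
    | succ n ih =>
      rcases ih with ⟨T, h1, h2⟩ | ⟨T, h1, h2, h3⟩
      · exact Or.inl ⟨T, h1.trans n.le_succ, h2⟩
      · by_cases h4 : ∀ j, L l j y + Lam ≤ t j ∨ Nn l T j < N
        · exact Or.inl ⟨T, h1.le.trans n.le_succ, h4⟩
        · obtain ⟨j, hj⟩ := not_forall.1 h4
          obtain ⟨h5, h6⟩ := not_or.1 hj
          refine Or.inr ⟨j :: T, by rw [List.length_cons, h1], ⟨h2, not_lt.1 h6⟩, fun k hk => ?_⟩
          rcases List.mem_cons.1 hk with h7 | h7
          · rw [h7]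
            exact not_le.1 h5
          · exact h3 k h7
  exact (key h).resolve_right hy

end Pool.Agent.P.MP_a54059_lc.PT
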