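import Pool.Agent.P.MP_a54059_lc.PT.Core

/-!
The parameters: `h = 8 k`, `s = k ^ 3`, `Lam = k ^ 3 W`, `|G| = k ^ 3`, `|U| = k ^ 24 W ^ 4`,
`K = 2 ^ k`, `b = k ^ 3 / 128`, `r = 1 / (k ^ 15 W ^ 2)`.  Then `r / 6 * (|U| / 8) / 4 = k ^ 9 W ^ 2 / 192`,
`gam = 16 √192 / √k ≤ exp (-1)`, `|G × U| r ^ 2 = 1 / k ^ 3`.
-/

namespace Pool.Agent.P.MP_a54059_lc.PT

open Finset
open scoped BigOperators Classical

variable {J ι A : Type} [Fintype ι] [DecidableEq ι] [Fintype A] [DecidableEq A] [Nonempty A]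

theorem Num_two (n : ℕ) : (2 : ℝ) ^ n ≤ Real.exp n := by
  have h : (2 : ℝ) ≤ Real.exp 1 := by linarith [Real.add_one_le_exp 1]
  calc (2 : ℝ) ^ n ≤ Real.exp 1 ^ n := pow_le_pow_left₀ (by norm_num) h n
    _ = Real.exp n := by rw [← Real.exp_nat_mul, mul_one]

theorem Num_half (n : ℕ) : (1 / 2 : ℝ) ^ n ≤ Real.exp (-(n / 2)) := by
  have h : (1 / 2 : ℝ) ≤ Real.exp (-(1 / 2)) := by linarith [Real.add_one_le_exp (-(1 / 2))]
  calc (1 / 2 : ℝ) ^ n ≤ Real.exp (-(1 / 2)) ^ n := pow_le_pow_left₀ (by norm_num) h n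
    _ = Real.exp (-(n / 2)) := by rw [← Real.exp_nat_mul]; congr 1; ring

theorem Num_cnt (k : ℕ) (hk : 8 ≤ k) :
    (((8 * k + 1) * (2 ^ k) ^ (8 * k) : ℕ) : ℝ) ≤ Real.exp (9 * k ^ 2) := by
  have hx : (8 : ℝ) ≤ k := by exact_mod_cast hk
  have h1 := Real.add_one_le_exp (8 * (k : ℝ))
  have h2 := Num_two (k * (8 * k))
  push_cast at h2 ⊢
  rw [← pow_mul]
  calc _ ≤ Real.exp (8 * k) * Real.exp (k * (8 * k)) :=
        mul_le_mul h1 h2 (by positivity) (by positivity)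
    _ ≤ _ := by rw [← Real.exp_add]; exact Real.exp_le_exp.2 (by nlinarith)

theorem Num_hs (k W : ℕ) (hk : 10 ^ 6 ≤ k) (hW2 : W ≤ 2 ^ k) :
    2 * (2 * (k ^ 3 * W) + 1) ^ (8 * k) ≤ 2 ^ k ^ 3 := by
  have h1 : k ^ 3 * W ≤ (2 ^ k) ^ 3 * 2 ^ k :=
    Nat.mul_le_mul (Nat.pow_le_pow_left Nat.lt_two_pow_self.le 3) hW2
  have h2 : 2 * (k ^ 3 * W) + 1 ≤ 2 ^ (4 * k + 2) := by
    have e : 2 ^ (4 * k + 2) = 4 * ((2 ^ k) ^ 3 * 2 ^ k) := by ring
    have : 0 < (2 ^ k) ^ 3 * 2 ^ k := by positivity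
    omega
  calc _ ≤ 2 * (2 ^ (4 * k + 2)) ^ (8 * k) := Nat.mul_le_mul_left 2 (Nat.pow_le_pow_left h2 _)
    _ = 2 ^ ((4 * k + 2) * (8 * k) + 1) := by rw [← pow_mul, pow_succ, mul_comm]
    _ ≤ _ := by
      refine Nat.pow_le_pow_right (by norm_num) ?_
      have h3 : 10 ^ 6 * (k * k) ≤ k * (k * k) := Nat.mul_le_mul_right _ hk
      have h4 : 10 ^ 6 * k ≤ k * k := Nat.mul_le_mul_right _ hk
      have e : k ^ 3 = k * (k * k) := by ring
      have e' : (4 * k + 2) * (8 * k) = 32 * (k * k) + 16 * k := by ring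
      omega

theorem Num_gam {x w : ℝ} (hx : 10 ^ 6 ≤ x) (hw : 1 ≤ w) :
    2 * (8 * x) * (x ^ 3 * w) / √(x ^ 9 * w ^ 2 / 192) ≤ Real.exp (-1) := by
  have h0 : 0 < x := by linarith
  have h1 : 48 * (x ^ 4 * w) ≤ √(x ^ 9 * w ^ 2 / 192) := by
    refine Real.le_sqrt_of_sq_le ?_
    have : 0 ≤ (x - 10 ^ 6) * (x ^ 8 * w ^ 2) := by positivity
    have : 0 ≤ x ^ 8 * w ^ 2 := by positivity
    nlinarith
  have h2 : (1 / 3 : ℝ) ≤ Real.exp (-1) := by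
    rw [Real.exp_neg, one_div]
    exact inv_anti₀ (Real.exp_pos 1) (by linarith [Real.exp_one_lt_d9])
  refine le_trans ?_ h2
  have h3 : 0 < x ^ 4 * w := by positivity
  rw [div_le_iff₀ (by linarith)]
  linarith

theorem Num_fin {x g A₀ A₁ A₂ A₃ A₄ c p K h : ℝ} (hx : 10 ^ 6 ≤ x) (hg : g ≤ Real.exp (-(8 * x)))
    (hh : h = 8 * x) (h0 : 16 * x ≤ A₀) (hc : c ≤ Real.exp (9 * x ^ 2))
    (h1 : 10 * x ^ 2 ≤ A₁) (hp : p ≤ Real.exp (-A₂)) (hp0 : 0 ≤ p) (h2 : 10 * x ^ 2 + 63 ≤ A₂)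
    (hK : K ≤ Real.exp x) (hK0 : 0 ≤ K) (h3 : 10 * x ^ 2 + x ≤ A₃) (h4 : 10 * x ^ 2 ≤ A₄) :
    Real.exp 3 * (g + h * Real.exp (-A₀)) +
      c * (Real.exp (-A₁) + 64 * p + K * Real.exp (-A₃) + Real.exp (-A₄)) <
      Real.exp (-(6 * x)) := by
  have key : ∀ a b u v : ℝ, a ≤ Real.exp u → u - b ≤ v → a * Real.exp (-b) ≤ Real.exp v :=
    fun a b u v h1 h2 => (mul_le_mul_of_nonneg_right h1 (Real.exp_pos _).le).trans (by
      rw [← Real.exp_add]; exact Real.exp_le_exp.2 (by linarith))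
  have a0 := key h A₀ (8 * x) (-(8 * x)) (by linarith [Real.add_one_le_exp (8 * x)]) (by linarith)
  have a1 : Real.exp (-A₁) ≤ Real.exp (-(10 * x ^ 2)) := Real.exp_le_exp.2 (by linarith)
  have a2 := key 64 A₂ 63 (-(10 * x ^ 2)) (by linarith [Real.add_one_le_exp 63]) (by linarith)
  have a3 := key K A₃ x (-(10 * x ^ 2)) hK (by linarith)
  have a4 : Real.exp (-A₄) ≤ Real.exp (-(10 * x ^ 2)) := Real.exp_le_exp.2 (by linarith)
  have b1 : Real.exp 3 * (g + h * Real.exp (-A₀)) ≤ Real.exp (-(7 * x)) := by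
    have b := key (Real.exp 3 * 2) (8 * x) (3 + 1) (-(7 * x)) (by
      rw [Real.exp_add]
      exact mul_le_mul_of_nonneg_left (by linarith [Real.add_one_le_exp 1]) (Real.exp_pos _).le)
      (by linarith)
    have b' := mul_le_mul_of_nonneg_left (add_le_add hg a0) (Real.exp_pos 3).le
    linarith
  have b2 : c * (Real.exp (-A₁) + 64 * p + K * Real.exp (-A₃) + Real.exp (-A₄)) ≤
      Real.exp (-(7 * x)) := by
    have b := key (Real.exp (9 * x ^ 2) * 4) (10 * x ^ 2) (9 * x ^ 2 + 3) (-(7 * x)) (by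
      rw [Real.exp_add]
      exact mul_le_mul_of_nonneg_left (by linarith [Real.add_one_le_exp 3]) (Real.exp_pos _).le)
      (by nlinarith)
    have b' : c * (Real.exp (-A₁) + 64 * p + K * Real.exp (-A₃) + Real.exp (-A₄)) ≤
        Real.exp (9 * x ^ 2) * (4 * Real.exp (-(10 * x ^ 2))) :=
      mul_le_mul hc (by linarith) (by positivity) (Real.exp_pos _).le
    linarith
  have b3 : 2 * Real.exp (-(7 * x)) < Real.exp x * Real.exp (-(7 * x)) :=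
    mul_lt_mul_of_pos_right (by linarith [Real.add_one_le_exp x]) (Real.exp_pos _)
  rw [← Real.exp_add, show x + -(7 * x) = -(6 * x) by ring] at b3
  linarith

theorem core_num [Fintype J] (k W : ℕ) (hk : 10 ^ 6 ≤ k) (hW : 1 ≤ W) (hW2 : W ≤ 2 ^ k)
    (hK : Fintype.card J ≤ 2 ^ k)
    (l : J → Fin (k ^ 3) × Fin (k ^ 24 * W ^ 4) → (Fin (k ^ 3) → Bool) → ℤ)
    (hl : ∀ j i a b, |l j i a - l j i b| ≤ (k ^ 3 * W : ℕ)) :
    ∃ c : Fin (k ^ 3) × Fin (k ^ 24 * W ^ 4) → Fin (k ^ 3) → Bool, ∀ (t : J → ℤ) (tau : ℕ),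
      (∀ y : Fin (k ^ 3) × Fin (k ^ 24 * W ^ 4) → Fin (k ^ 3) → Bool,
        (∀ j, L l j y ≤ t j) → tau ≤ ∑ i, hammingDist (c i) (y i)) →
      dens (fun y : Fin (k ^ 3) × Fin (k ^ 24 * W ^ 4) → Fin (k ^ 3) → Bool =>
        (∀ j, L l j y ≤ t j) ∧ ∑ i, hammingDist (c i) (y i) = tau) < Real.exp (-(6 * k)) := by
  have hx : (10 : ℝ) ^ 6 ≤ k := by exact_mod_cast hk
  have hw : (1 : ℝ) ≤ W := by exact_mod_cast hW
  have hk0 : 0 < k := by omega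
  have x1 : (1 : ℝ) ≤ k := by linarith
  have x0 : (0 : ℝ) < k := by linarith
  have w0 : (0 : ℝ) < W := by linarith
  have : Nonempty (Fin (k ^ 3)) := ⟨⟨0, by positivity⟩⟩
  have : Nonempty (Fin (k ^ 24 * W ^ 4)) := ⟨⟨0, by positivity⟩⟩
  have cG : (Fintype.card (Fin (k ^ 3)) : ℝ) = k ^ 3 := by simp
  have cU : (Fintype.card (Fin (k ^ 24 * W ^ 4)) : ℝ) = k ^ 24 * W ^ 4 := by simp
  have cQ : (Fintype.card (Fin (k ^ 3) × Fin (k ^ 24 * W ^ 4)) : ℝ) = k ^ 3 * (k ^ 24 * W ^ 4) := by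
    simp
  have hc := Num_cnt k (by omega)
  have p2 : 10 ^ 6 * (k : ℝ) ≤ k ^ 2 := by nlinarith
  have p3 : 10 ^ 6 * (k : ℝ) ^ 2 ≤ k ^ 3 := by nlinarith
  have m : ∀ a b : ℕ, (k : ℝ) ^ 3 ≤ k ^ 3 * (k ^ a * W ^ b) := fun a b =>
    le_mul_of_one_le_right (by positivity)
      (one_le_mul_of_one_le_of_one_le (one_le_pow₀ x1) (one_le_pow₀ hw))
  obtain ⟨c, hcc⟩ := choose_x l (k ^ 3 * W) (8 * k) (2 ^ k) hK Nat.one_le_two_pow hl
    (Num_hs k W hk hW2) (by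
      refine (mul_le_mul_of_nonneg_right hc (Real.exp_pos _).le).trans_lt ?_
      rw [← Real.exp_add, cQ]
      exact Real.exp_lt_one_iff.2 (by linarith [m 24 4]))
  refine ⟨c, fun t tau hin => ?_⟩
  have e1 : 1 / ((k : ℝ) ^ 15 * W ^ 2) / 6 * (k ^ 24 * W ^ 4 / 8) / 4 = k ^ 9 * W ^ 2 / 192 := by
    field_simp
    ring
  have e2 : (k : ℝ) ^ 3 * (k ^ 24 * W ^ 4) * (1 / (k ^ 15 * W ^ 2)) ^ 2 = 1 / k ^ 3 := by
    field_simp
  have hg := Num_gam hx hw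
  have hb : (k : ℝ) ^ 3 / 128 - 1 ≤ (k ^ 3 / 128 : ℕ) := by
    have h1 : k ^ 3 ≤ 128 * (k ^ 3 / 128) + 128 := by omega
    have h2 : (k : ℝ) ^ 3 ≤ 128 * ((k ^ 3 / 128 : ℕ) : ℝ) + 128 := by exact_mod_cast h1
    linarith
  refine (core l (k ^ 3 * W) (8 * k) (2 ^ k) (k ^ 3 / 128) (1 / (k ^ 15 * W ^ 2))
    (Nat.succ_le_of_lt (by positivity)) (by omega) hK Nat.one_le_two_pow hl (by positivity) ?_ ?_ ?_
    ?_ c hcc t tau hin).trans_lt ?_
  · refine one_div_le_one_div_of_le (by norm_num) ?_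
    have := m 12 2
    nlinarith
  · rw [cQ, mul_assoc, e2, mul_one_div, div_le_one (by positivity)]
    linarith
  · rw [cU, e1]
    push_cast
    exact hg.trans (Real.exp_le_one_iff.2 (by norm_num))
  · rw [cG]
    exact Nat.cast_div_le.trans (by push_cast; exact le_rfl)
  · rw [cG, cU, cQ, e1, mul_assoc 1152, e2]
    refine Num_fin (A₂ := (k ^ 3 / 128 : ℕ) / 2) hx ?_ (by push_cast; rfl) ?_ hc ?_ (Num_half _)
      (by positivity) (by linarith) (by push_cast; exact Num_two k) (by positivity) ?_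
      (by linarith [m 24 4])
    · push_cast
      refine (pow_le_pow_left₀ (by positivity) hg _).trans (le_of_eq ?_)
      rw [← Real.exp_nat_mul]
      congr 1
      push_cast
      ring
    · have := m 6 2
      nlinarith
    · rw [mul_one_div, one_div_div]
      linarith
    · have e : (k : ℝ) ^ 24 * W ^ 4 / (128 * k ^ 3) = k ^ 3 * (k ^ 18 * W ^ 4) / 128 := by
        field_simp
      rw [e]
      linarith [m 18 4]

end Pool.Agent.P.MP_a54059_lc.PT
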