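import Pool.Agent.P.MP_a54059_lc.PT.Num
import Pool.Agent.P.MP_a54059_lc.PT.Level

/-!
Reduction from `n` bits to the product space (paper, section Reduce).  Take an equivalence
`Fin n ≃ (ι × Fin s) ⊕ Fin rem`; on `Fin rem` put `x = false` and `y = true` on the first `a`
coordinates, with `a` chosen so that `t - a` is a middle level of the `k ^ 30 W ^ 4` free bits.
`J = Fin M × Fin m`; for the popular `i` the thresholds of the facets `(i', j)`, `i' ≠ i`, are the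
sums of absolute values of the weights.
-/

namespace Pool.Agent.P.MP_a54059_lc.PT

open Finset
open scoped BigOperators Classical

variable {J ι A : Type} [Fintype ι] [DecidableEq ι] [Fintype A] [DecidableEq A] [Nonempty A]

theorem Reduce_pow (u : ℕ) (hu : 9 ≤ u) : 32 * (u + 1) ≤ 2 ^ u := by
  induction u, hu using Nat.le_induction with
  | base => norm_num
  | succ u hu ih => rw [pow_succ]; omega

theorem Reduce_num (k W : ℕ) (hk : 10 ^ 6 ≤ k) (hW : 1 ≤ W) (hW2 : W ≤ 2 ^ k) :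
    2 * (k ^ 30 * W ^ 4 + 1) * 2 ^ k ≤ 2 ^ (6 * k) := by
  have h1 := Reduce_pow (k / 32) (by omega)
  have h2 : k ≤ 2 ^ (k / 32) := by omega
  have h3 : k ^ 30 ≤ (2 ^ (k / 32)) ^ 30 := Nat.pow_le_pow_left h2 30
  have h4 : W ^ 4 ≤ (2 ^ k) ^ 4 := Nat.pow_le_pow_left hW2 4
  have h5 : 1 ≤ k ^ 30 * W ^ 4 := Nat.mul_pos (Nat.pow_pos (by omega)) (Nat.pow_pos hW)
  have h6 : k ^ 30 * W ^ 4 ≤ (2 ^ (k / 32)) ^ 30 * (2 ^ k) ^ 4 := Nat.mul_le_mul h3 h4
  calc 2 * (k ^ 30 * W ^ 4 + 1) * 2 ^ k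
      ≤ 2 ^ 2 * ((2 ^ (k / 32)) ^ 30 * (2 ^ k) ^ 4) * 2 ^ k :=
        Nat.mul_le_mul_right _ (by omega)
    _ = 2 ^ (2 + (k / 32 * 30 + k * 4) + k) := by
        rw [← pow_mul, ← pow_mul, ← pow_add, ← pow_add, ← pow_add]
    _ ≤ 2 ^ (6 * k) := Nat.pow_le_pow_right (by norm_num) (by omega)

theorem Reduce_ham {κ : Type} [Fintype κ] (x y : κ → Bool) :
    hammingDist x y = ∑ v, if x v = y v then 0 else 1 := by
  unfold hammingDist
  rw [card_filter]
  refine sum_congr rfl fun v _ => ?_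
  by_cases h : x v = y v <;> simp [h]

/-- The word with the free part `y` and the fixed part `z`. -/
def Reduce_ext {n s rem : ℕ} (e : Fin n ≃ (ι × Fin s) ⊕ Fin rem) (y : ι → Fin s → Bool)
    (z : Fin rem → Bool) (v : Fin n) : Bool :=
  Sum.elim (fun p : ι × Fin s => y p.1 p.2) z (e v)

theorem Reduce_sum {B : Type} [AddCommMonoid B] {n s rem : ℕ}
    (e : Fin n ≃ (ι × Fin s) ⊕ Fin rem) (f : Fin n → B) :
    ∑ v, f v = ∑ i, ∑ p, f (e.symm (.inl (i, p))) + ∑ r, f (e.symm (.inr r)) := by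
  rw [← Equiv.sum_comp e.symm f, Fintype.sum_sum_type, Fintype.sum_prod_type]

theorem Reduce_dist {n s rem : ℕ} (e : Fin n ≃ (ι × Fin s) ⊕ Fin rem) (c y : ι → Fin s → Bool)
    {a : ℕ} (ha : a ≤ rem) :
    hammingDist (Reduce_ext e c fun _ => false) (Reduce_ext e y fun r => decide (r.1 < a)) =
      ∑ i, hammingDist (c i) (y i) + a := by
  rw [Reduce_ham, Reduce_sum e]
  simp only [Reduce_ext, Equiv.apply_symm_apply, Sum.elim_inl, Sum.elim_inr]
  congr 1
  · exact sum_congr rfl fun i _ => (Reduce_ham _ _).symm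
  · have h1 : ∀ r : Fin rem, (if false = decide (r.1 < a) then 0 else 1 : ℕ) =
        if r.1 < a then 1 else 0 := by
      intro r
      by_cases h : r.1 < a <;> simp [h]
    rw [sum_congr rfl fun r _ => h1 r, ← card_filter, Fin.card_filter_val_lt, min_eq_right ha]

theorem Reduce_main {n s rem M m W t a : ℕ} (e : Fin n ≃ (ι × Fin s) ⊕ Fin rem) (ha : a ≤ rem)
    (hat : a ≤ t) (β : Fin M → Fin m → Fin n → ℤ) (τ : Fin M → Fin m → (Fin n → Bool) → ℤ)
    (hβ : ∀ i j v, |β i j v| ≤ W)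
    (hf : ∀ x y : Fin n → Bool, t ≤ hammingDist x y ↔
      ∃ i, ∀ j, ∑ v, (if y v then β i j v else 0) ≤ τ i j x) (ε : ℝ)
    (hcore : ∀ l : Fin M × Fin m → ι → (Fin s → Bool) → ℤ,
      (∀ j i a b, |l j i a - l j i b| ≤ (s * W : ℕ)) →
      ∃ c : ι → Fin s → Bool, ∀ (t : Fin M × Fin m → ℤ) (tau : ℕ),
        (∀ y : ι → Fin s → Bool, (∀ j, L l j y ≤ t j) → tau ≤ ∑ i, hammingDist (c i) (y i)) →
        dens (fun y : ι → Fin s → Bool =>
          (∀ j, L l j y ≤ t j) ∧ ∑ i, hammingDist (c i) (y i) = tau) < ε) :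
    ∃ c : ι → Fin s → Bool,
      dens (fun y : ι → Fin s → Bool => ∑ i, hammingDist (c i) (y i) = t - a) ≤ M * ε := by
  let l : Fin M × Fin m → ι → (Fin s → Bool) → ℤ := fun j i b =>
    ∑ p, if b p then β j.1 j.2 (e.symm (.inl (i, p))) else 0
  have hl : ∀ j i a b, |l j i a - l j i b| ≤ (s * W : ℕ) := by
    intro j i a b
    simp only [l]
    rw [← sum_sub_distrib]
    refine (abs_sum_le_sum_abs _ _).trans ((sum_le_card_nsmul _ _ (W : ℤ) fun p _ => ?_).trans ?_)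
    · have := hβ j.1 j.2 (e.symm (.inl (i, p)))
      cases a p <;> cases b p <;> simp [this]
    · simp
  obtain ⟨c, hc⟩ := hcore l hl
  refine ⟨c, ?_⟩
  let z : Fin rem → Bool := fun r => decide (r.1 < a)
  let cst : Fin M × Fin m → ℤ := fun j => ∑ r, if z r then β j.1 j.2 (e.symm (.inr r)) else 0
  have hL : ∀ (j : Fin M × Fin m) (y : ι → Fin s → Bool),
      ∑ v, (if Reduce_ext e y z v then β j.1 j.2 v else 0) = L l j y + cst j := by
    intro j y
    rw [Reduce_sum e]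
    simp only [Reduce_ext, Equiv.apply_symm_apply, Sum.elim_inl, Sum.elim_inr]
    rfl
  let big : Fin M × Fin m → ℤ := fun j => ∑ i, ∑ p, |β j.1 j.2 (e.symm (.inl (i, p)))|
  have hbig : ∀ j y, L l j y ≤ big j := by
    intro j y
    refine sum_le_sum fun i _ => sum_le_sum fun p _ => ?_
    split_ifs
    · exact le_abs_self _
    · exact abs_nonneg _
  let th : Fin M → Fin M × Fin m → ℤ := fun i0 j =>
    if j.1 = i0 then τ j.1 j.2 (Reduce_ext e c fun _ => false) - cst j else big j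
  have hth : ∀ i0 y, (∀ j, L l j y ≤ th i0 j) ↔ ∀ j, ∑ v,
      (if Reduce_ext e y z v then β i0 j v else 0) ≤ τ i0 j (Reduce_ext e c fun _ => false) := by
    intro i0 y
    constructor
    · intro h j
      have h1 := h (i0, j)
      have h2 := hL (i0, j) y
      simp only [th, if_true] at h1 h2
      omega
    · rintro h ⟨i1, j⟩
      simp only [th]
      split_ifs with h1
      · subst h1
        have h1 := h j
        have h2 := hL (i1, j) y
        simp only at h2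
        omega
      · exact hbig _ _
  have h1 : ∀ i0 ∈ (univ : Finset (Fin M)), dens (fun y : ι → Fin s → Bool =>
      (∀ j, L l j y ≤ th i0 j) ∧ ∑ i, hammingDist (c i) (y i) = t - a) ≤ ε := by
    intro i0 _
    refine (hc (th i0) (t - a) fun y hy => ?_).le
    have h2 := (hf _ _).2 ⟨i0, (hth i0 y).1 hy⟩
    rw [Reduce_dist e c y ha] at h2
    omega
  refine (dens_mono (Q := fun y => ∃ i0 ∈ (univ : Finset (Fin M)),
    (∀ j, L l j y ≤ th i0 j) ∧ ∑ i, hammingDist (c i) (y i) = t - a) fun y hy => ?_).trans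
    ((dens_exists _ _).trans ((sum_le_card_nsmul _ _ ε h1).trans (by simp)))
  have h2 : t ≤ hammingDist (Reduce_ext e c fun _ => false) (Reduce_ext e y z) := by
    rw [Reduce_dist e c y ha]
    omega
  obtain ⟨i0, hi0⟩ := (hf _ _).1 h2
  exact ⟨i0, mem_univ _, (hth i0 y).2 hi0, hy⟩

theorem sigma_bound (k n t W M m : ℕ) (hk : 10 ^ 6 ≤ k) (hW : 1 ≤ W) (hW2 : W ≤ 2 ^ k)
    (hn : k ^ 30 * W ^ 4 ≤ n) (ht1 : n ≤ 2 * t) (ht2 : 2 * t ≤ n + 2)
    (β : Fin M → Fin m → Fin n → ℤ) (τ : Fin M → Fin m → (Fin n → Bool) → ℤ)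
    (hβ : ∀ i j v, |β i j v| ≤ W)
    (hf : ∀ x y : Fin n → Bool, t ≤ hammingDist x y ↔
      ∃ i, ∀ j, ∑ v, (if y v then β i j v else 0) ≤ τ i j x) :
    2 ^ k < M * m := by
  by_contra hcon
  have hMm : M * m ≤ 2 ^ k := not_lt.1 hcon
  have hn2 : 2 ≤ k ^ 30 * W ^ 4 := by
    have h1 : 2 ≤ k := le_trans (by norm_num) hk
    have h2 : k ≤ k ^ 30 := Nat.le_self_pow (by norm_num) k
    have h3 : 1 ≤ W ^ 4 := Nat.one_le_pow _ _ hW
    calc 2 = 2 * 1 := rfl
      _ ≤ _ := Nat.mul_le_mul (h1.trans h2) h3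
  have hM : M ≤ 2 ^ k := by
    rcases Nat.eq_zero_or_pos m with h0 | h0
    · rcases Nat.eq_zero_or_pos M with h1 | h1
      · omega
      · subst h0
        have h2 := (hf (fun _ => false) fun _ => false).2 ⟨⟨0, h1⟩, fun j => j.elim0⟩
        rw [hammingDist_self] at h2
        omega
    · exact (Nat.le_mul_of_pos_right M h0).trans hMm
  have hcard : Fintype.card (Fin (k ^ 3) × Fin (k ^ 24 * W ^ 4)) * k ^ 3 = k ^ 30 * W ^ 4 := by
    rw [Fintype.card_prod, Fintype.card_fin, Fintype.card_fin]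
    ring
  obtain ⟨a, ha1, ha2, ha3, ha4⟩ : ∃ a, a ≤ n - k ^ 30 * W ^ 4 ∧ a ≤ t ∧
      k ^ 30 * W ^ 4 ≤ 2 * (t - a) ∧ 2 * (t - a) ≤ k ^ 30 * W ^ 4 + 2 := by
    generalize k ^ 30 * W ^ 4 = n' at hn hn2
    refine ⟨min (n - n') (t - (n' + 1) / 2), ?_, ?_, ?_, ?_⟩ <;> omega
  let e : Fin n ≃ ((Fin (k ^ 3) × Fin (k ^ 24 * W ^ 4)) × Fin (k ^ 3)) ⊕
      Fin (n - k ^ 30 * W ^ 4) := Fintype.equivOfCardEq (by
    rw [Fintype.card_sum, Fintype.card_prod, Fintype.card_fin (k ^ 3), hcard, Fintype.card_fin,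
      Fintype.card_fin]
    omega)
  obtain ⟨c, hc⟩ := Reduce_main e ha1 ha2 β τ hβ hf (Real.exp (-(6 * k))) fun l hl =>
    core_num k W hk hW hW2 (by simpa using hMm) l hl
  have h1 := level_dens c (t - a) (by rwa [hcard]) (by rwa [hcard]) (by rwa [hcard])
  rw [hcard] at h1
  have h2 := h1.trans hc
  have h3 : (2 * (((k ^ 30 * W ^ 4 : ℕ) : ℝ) + 1)) * 2 ^ k ≤ 2 ^ (6 * k) := by
    exact_mod_cast Reduce_num k W hk hW hW2
  have h4 : (2 : ℝ) ^ (6 * k) < Real.exp (6 * k) := by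
    have h5 : Real.exp (6 * k) = Real.exp 1 ^ (6 * k) := by
      rw [← Real.exp_nat_mul]
      push_cast
      rw [mul_one]
    rw [h5]
    exact pow_lt_pow_left₀ (lt_trans (by norm_num) Real.exp_one_gt_d9) (by norm_num) (by omega)
  have h6 : (M : ℝ) ≤ 2 ^ k := by exact_mod_cast hM
  have h7 : (0 : ℝ) < 2 * (((k ^ 30 * W ^ 4 : ℕ) : ℝ) + 1) := by positivity
  rw [div_le_iff₀ h7, Real.exp_neg, mul_right_comm, ← div_eq_mul_inv,
    le_div_iff₀ (Real.exp_pos _), one_mul] at h2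
  have h8 := mul_le_mul_of_nonneg_right h6 h7.le
  linarith

end Pool.Agent.P.MP_a54059_lc.PT
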