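import Pool.Agent.P.MP_a54059_lc.PT.Basic

/-!
Symmetry half of the short-facet lemma (paper, section S, S1).  For a set `e` of groups the map
`(z, w) ↦ (mv z u w e, fun g => if g ∈ e then z (g, u g) else w g)` is an involution that preserves
the weight (`ker_symm`, `cls_eq_of_mem`), and these maps compose by symmetric difference.  If a
configuration has `b` good groups, at most `2 ^ (|G| - b)` vertices `mv z u w e` satisfy all
facets of `Sh`.
-/

namespace Pool.Agent.P.MP_a54059_lc.PT

open Finset
open scoped BigOperators Classical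

variable {J ι A : Type} [Fintype ι] [DecidableEq ι] [Fintype A] [DecidableEq A] [Nonempty A]

section
variable {G U : Type} [Fintype G] [Fintype U] [DecidableEq G] [DecidableEq U]

/-- The swap of the groups in `e`. -/
def S1_sw (u : G → U) (e : Finset G) (x : (G × U → A) × (G → A)) : (G × U → A) × (G → A) :=
  (mv x.1 u x.2 e, fun g => if g ∈ e then x.1 (g, u g) else x.2 g)

omit [Fintype A] [DecidableEq A] [Nonempty A] [Fintype G] [Fintype U] in
theorem S1_sw_sw (u : G → U) (e e' : Finset G) (x : (G × U → A) × (G → A)) :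
    S1_sw u e (S1_sw u e' x) = S1_sw u (symmDiff e e') x := by
  refine Prod.ext (funext fun i => ?_) (funext fun g => ?_)
  · obtain ⟨g, v⟩ := i
    by_cases h1 : g ∈ e <;> by_cases h2 : g ∈ e' <;> by_cases h3 : v = u g <;>
      simp [S1_sw, mv, mem_symmDiff, h1, h2, h3]
  · by_cases h1 : g ∈ e <;> by_cases h2 : g ∈ e' <;> simp [S1_sw, mv, mem_symmDiff, h1, h2]

omit [Fintype A] [DecidableEq A] [Nonempty A] [Fintype G] [Fintype U] in
theorem S1_sw_inv (u : G → U) (e : Finset G) :
    Function.Involutive (S1_sw (A := A) u e) := by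
  intro x
  rw [S1_sw_sw, symmDiff_self]
  refine Prod.ext (funext fun i => ?_) (funext fun g => ?_) <;> simp [S1_sw, mv]

theorem S1_weight (l : J → G × U → A → ℤ) (T : List J) (u : G → U) (e : Finset G)
    (x : (G × U → A) × (G → A)) :
    ∏ g, ker l T (g, u g) ((S1_sw u e x).1 (g, u g)) ((S1_sw u e x).2 g) =
      ∏ g, ker l T (g, u g) (x.1 (g, u g)) (x.2 g) := by
  refine prod_congr rfl fun g _ => ?_
  by_cases h : g ∈ e
  · simp only [S1_sw, mv, h, true_and, if_true]
    exact ker_symm _ _ _ _ _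
  · simp only [S1_sw, mv, h, false_and, if_false]

omit [Fintype A] [DecidableEq A] [Nonempty A] in
theorem S1_out (l : J → G × U → A → ℤ) (Sh : J → Prop) (t : J → ℤ) (u : G → U)
    (z : G × U → A) (w : G → A) {e : Finset G} {g : G} (hg : Good l Sh t z u w g) (he : g ∈ e) :
    ¬ ∀ j, Sh j → L l j (mv z u w e) ≤ t j := by
  obtain ⟨j, hj, h1, h2⟩ := hg
  intro h
  have h3 : L l j (mv z u w e) = L l j (mv z u w {g}) := by
    refine sum_congr rfl fun i _ => ?_
    obtain ⟨g', v⟩ := i
    by_cases h4 : g' = g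
    · subst h4
      simp [mv, he]
    · by_cases h5 : g' ∈ e ∧ v = u g'
      · obtain ⟨h5, rfl⟩ := h5
        simp [mv, h4, h5, h2 g' h4]
      · simp only [mv, h5, if_false, mem_singleton, h4, false_and]
  have := h j hj
  omega

/-- The event. -/
def S1_E (l : J → G × U → A → ℤ) (Sh : J → Prop) (t : J → ℤ) (u : G → U) (b : ℕ)
    (x : (G × U → A) × (G → A)) : Prop :=
  (∀ j, Sh j → L l j x.1 ≤ t j) ∧ b ≤ (univ.filter fun g => Good l Sh t x.1 u x.2 g).card

omit [Fintype A] [DecidableEq A] [Nonempty A] in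
theorem S1_count (l : J → G × U → A → ℤ) (Sh : J → Prop) (t : J → ℤ) (u : G → U) (b : ℕ)
    (x : (G × U → A) × (G → A)) :
    (univ.filter fun e : Finset G => S1_E l Sh t u b (S1_sw u e x)).card * 2 ^ b ≤
      2 ^ Fintype.card G := by
  rcases (univ.filter fun e : Finset G => S1_E l Sh t u b (S1_sw u e x)).eq_empty_or_nonempty with
    h | ⟨e0, h0⟩
  · rw [h]
    simp
  · have h1 := (mem_filter.1 h0).2.2
    generalize hS : (univ.filter fun g =>
      Good l Sh t (S1_sw u e0 x).1 u (S1_sw u e0 x).2 g) = S at h1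
    have h2 : (univ.filter fun e : Finset G => S1_E l Sh t u b (S1_sw u e x)).card ≤
        (powerset Sᶜ).card := by
      refine card_le_card_of_injOn (fun e => symmDiff e e0) (fun e he => ?_)
        fun e _ e' _ h => symmDiff_left_injective e0 h
      have h3 := (mem_filter.1 he).2.1
      have h4 : S1_sw u e x = S1_sw u (symmDiff e e0) (S1_sw u e0 x) := by
        rw [S1_sw_sw, symmDiff_symmDiff_cancel_right]
      rw [h4] at h3
      refine mem_coe.2 (mem_powerset.2 fun g hg => mem_compl.2 fun hgS => ?_)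
      rw [← hS] at hgS
      exact S1_out l Sh t u _ _ (mem_filter.1 hgS).2 hg h3
    rw [card_powerset, card_compl] at h2
    have h5 : S.card ≤ Fintype.card G := card_le_univ S
    calc _ ≤ 2 ^ (Fintype.card G - S.card) * 2 ^ S.card :=
          Nat.mul_le_mul h2 (Nat.pow_le_pow_right two_pos h1)
      _ = _ := by rw [← pow_add, Nat.sub_add_cancel h5]

theorem S1_main (l : J → G × U → A → ℤ) (T : List J) (Sh : J → Prop) (t : J → ℤ) (u : G → U)
    (b : ℕ) :
    (∑ x : (G × U → A) × (G → A), (∏ g, ker l T (g, u g) (x.1 (g, u g)) (x.2 g)) *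
      (if S1_E l Sh t u b x then (1 : ℝ) else 0)) * 2 ^ b ≤ Fintype.card (G × U → A) := by
  generalize hW : (fun x : (G × U → A) × (G → A) =>
    ∏ g, ker l T (g, u g) (x.1 (g, u g)) (x.2 g)) = W
  have hW' : ∀ x : (G × U → A) × (G → A),
      ∏ g, ker l T (g, u g) (x.1 (g, u g)) (x.2 g) = W x := fun x => congrFun hW x
  have h0 : ∀ x, 0 ≤ W x := fun x => by
    rw [← hW']
    exact prod_nonneg fun g _ => ker_nonneg _ _ _ _ _
  have h1 : ∀ e x, W (S1_sw u e x) = W x := fun e x => by
    rw [← hW', ← hW', S1_weight]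
  have h2 : ∑ x, W x = Fintype.card (G × U → A) := by
    rw [Fintype.sum_prod_type, ← card_univ, card_eq_sum_ones, Nat.cast_sum]
    refine sum_congr rfl fun z _ => ?_
    simp only [← hW']
    rw [← Fintype.prod_sum fun g a => ker l T (g, u g) (z (g, u g)) a]
    simp [ker_sum]
  simp only [hW']
  have h3 : ∀ e : Finset G, ∑ x, W x * (if S1_E l Sh t u b x then (1 : ℝ) else 0) =
      ∑ x, W x * (if S1_E l Sh t u b (S1_sw u e x) then (1 : ℝ) else 0) := by
    intro e
    rw [← Equiv.sum_comp (S1_sw_inv u e).toPerm]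
    exact sum_congr rfl fun x _ => by rw [Function.Involutive.coe_toPerm, h1]
  have h4 : (2 : ℝ) ^ Fintype.card G * ∑ x, W x * (if S1_E l Sh t u b x then (1 : ℝ) else 0) =
      ∑ x, W x * (univ.filter fun e : Finset G => S1_E l Sh t u b (S1_sw u e x)).card := by
    calc _ = ∑ _e : Finset G, ∑ x, W x * (if S1_E l Sh t u b x then (1 : ℝ) else 0) := by
          rw [sum_const, card_univ, Fintype.card_finset, nsmul_eq_mul]
          push_cast
          rfl
      _ = ∑ e : Finset G, ∑ x,
            W x * (if S1_E l Sh t u b (S1_sw u e x) then (1 : ℝ) else 0) :=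
          sum_congr rfl fun e _ => h3 e
      _ = _ := by
          rw [sum_comm]
          refine sum_congr rfl fun x _ => ?_
          rw [← mul_sum, sum_boole]
  have h5 : (0 : ℝ) < 2 ^ Fintype.card G := by positivity
  refine le_of_mul_le_mul_left ?_ h5
  rw [← mul_assoc, h4, ← h2, sum_mul, mul_sum]
  refine sum_le_sum fun x _ => ?_
  rw [mul_assoc, mul_comm _ (W x)]
  refine mul_le_mul_of_nonneg_left ?_ (h0 x)
  exact_mod_cast S1_count l Sh t u b x

end

theorem s_one {G U : Type} [Fintype G] [Fintype U] [DecidableEq G] [DecidableEq U]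
    (l : J → G × U → A → ℤ) (T : List J) (Sh : J → Prop) (t : J → ℤ) (u : G → U) (b : ℕ) :
    𝔼 z : G × U → A, ∑ w : G → A, (∏ g, ker l T (g, u g) (z (g, u g)) (w g)) *
        (if (∀ j, Sh j → L l j z ≤ t j) ∧ b ≤ (univ.filter fun g => Good l Sh t z u w g).card
          then (1 : ℝ) else 0) ≤ (1 / 2) ^ b := by
  have h := S1_main l T Sh t u b
  rw [Fintype.sum_prod_type] at h
  have hc : (0 : ℝ) < Fintype.card (G × U → A) := by exact_mod_cast Fintype.card_pos
  rw [Fintype.expect_eq_sum_div_card, div_le_iff₀ hc, one_div_pow, div_mul_eq_mul_div, one_mul,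
    le_div_iff₀ (by positivity)]
  refine le_trans (le_of_eq ?_) h
  congr 1
  refine sum_congr rfl fun z _ => sum_congr rfl fun w _ => ?_
  exact congrArg _ (if_congr Iff.rfl rfl rfl)

end Pool.Agent.P.MP_a54059_lc.PT
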