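import Pool.Agent.P.MP_a54059_lc.PT.Basic

/-!
The tilted kernels of one part (paper, section Tilt).  With `D = th b - th a`: `Zm` lies in
`[1 - r, 1 + 2 r]`, `|1 / Zm - 1| ≤ 4 r`, `|exp D / Zm - 1| ≤ 8`, and
`Zt a - 1 = (1 - r) (1 / Zm a - 1) + r * 𝔼 b, (exp D / Zm b - 1)`.
-/

namespace Pool.Agent.P.MP_a54059_lc.PT

open Finset
open scoped BigOperators Classical

variable {J ι A : Type} [Fintype ι] [DecidableEq ι] [Fintype A] [DecidableEq A] [Nonempty A]

theorem Tilt_card : (0 : ℝ) < Fintype.card A := Nat.cast_pos.2 Fintype.card_pos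

theorem Tilt_sum (r : ℝ) (b : A) (f : A → ℝ) :
    ∑ a, lz r b a * f a = (1 - r) * f b + r / Fintype.card A * ∑ a, f a := by
  simp only [lz, add_mul, sum_add_distrib, ite_mul, zero_mul, sum_ite_eq, mem_univ, if_true,
    mul_sum]

theorem Tilt_symm (r : ℝ) (a b : A) : lz r a b = lz r b a := by
  simp only [lz, eq_comm]

theorem Tilt_Zm (r : ℝ) (th : A → ℝ) (b : A) :
    Zm r th b = (1 - r) + r / Fintype.card A * ∑ a, Real.exp (th b - th a) := by
  rw [Zm, Tilt_sum, sub_self, Real.exp_zero, mul_one]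

theorem Tilt_avg {r c : ℝ} (h0 : 0 ≤ r) {f : A → ℝ} (h : ∀ a, f a ≤ c) :
    r / Fintype.card A * ∑ a, f a ≤ r * c := by
  have h1 : ∑ a, f a ≤ Fintype.card A * c := by
    have h2 := Finset.sum_le_card_nsmul univ f c fun a _ => h a
    rwa [card_univ, nsmul_eq_mul] at h2
  have h3 := Tilt_card (A := A)
  refine (mul_le_mul_of_nonneg_left h1 (by positivity)).trans (le_of_eq ?_)
  field_simp

theorem Tilt_exp_le {x : ℝ} (h : |x| ≤ 1) : Real.exp x ≤ 3 :=
  (Real.exp_le_exp.2 (abs_le.1 h).2).trans (Real.exp_one_lt_d9.le.trans (by norm_num))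

theorem Tilt_exp_ge {x : ℝ} (h : |x| ≤ 1) : 1 / 3 ≤ Real.exp x := by
  have h1 : Real.exp (-x) ≤ 3 := Tilt_exp_le (by rwa [abs_neg])
  have h2 : Real.exp x * Real.exp (-x) = 1 := by rw [← Real.exp_add, add_neg_cancel, Real.exp_zero]
  have h3 := Real.exp_pos x
  nlinarith

theorem Tilt_Zm_ge {r : ℝ} (h0 : 0 ≤ r) (th : A → ℝ) (b : A) : 1 - r ≤ Zm r th b := by
  have h1 : 0 ≤ r / Fintype.card A * ∑ a, Real.exp (th b - th a) := by positivity
  rw [Tilt_Zm]
  linarith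

theorem Tilt_Zm_le {r : ℝ} (h0 : 0 ≤ r) (th : A → ℝ) (hth : ∀ a b, |th a - th b| ≤ 1) (b : A) :
    Zm r th b ≤ 1 + 2 * r := by
  have h1 := Tilt_avg h0 (f := fun a => Real.exp (th b - th a)) fun a => Tilt_exp_le (hth b a)
  rw [Tilt_Zm]
  linarith

theorem Zm_pos {r : ℝ} (h0 : 0 ≤ r) (h1 : r ≤ 1 / 24) (th : A → ℝ) (b : A) : 0 < Zm r th b := by
  have h := Tilt_Zm_ge h0 th b
  linarith

theorem kt_sum {r : ℝ} (h0 : 0 ≤ r) (h1 : r ≤ 1 / 24) (th : A → ℝ) (b : A) :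
    ∑ a, kt r th b a = 1 := by
  simp only [kt, ← sum_div]
  exact div_self (Zm_pos h0 h1 th b).ne'

theorem kt_ge {r : ℝ} (h0 : 0 ≤ r) (h1 : r ≤ 1 / 24) (th : A → ℝ)
    (hth : ∀ a b, |th a - th b| ≤ 1) (b a : A) : r / 6 / Fintype.card A ≤ kt r th b a := by
  have h2 := Tilt_card (A := A)
  have h3 : 0 ≤ r / Fintype.card A := by positivity
  have h4 : r / Fintype.card A ≤ lz r b a := by
    unfold lz
    split_ifs <;> linarith
  have h5 := Tilt_exp_ge (hth b a)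
  have h6 := Tilt_Zm_le h0 th hth b
  have h7 : r / Fintype.card A * (1 / 3) ≤ lz r b a * Real.exp (th b - th a) :=
    mul_le_mul h4 h5 (by norm_num) (h3.trans h4)
  rw [kt, le_div_iff₀ (Zm_pos h0 h1 th b)]
  have h8 : r / 6 / Fintype.card A = r / Fintype.card A * (1 / 6) := by ring
  have h9 : Zm r th b ≤ 2 := by linarith
  rw [h8]
  nlinarith [mul_le_mul_of_nonneg_left h9 h3]

theorem Zt_mean {r : ℝ} (h0 : 0 ≤ r) (h1 : r ≤ 1 / 24) (th : A → ℝ) : 𝔼 a, Zt r th a = 1 := by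
  have h2 := Tilt_card (A := A)
  rw [Finset.expect_eq_sum_div_card, card_univ]
  simp only [Zt]
  rw [sum_comm]
  simp only [kt_sum h0 h1, sum_const, card_univ, nsmul_eq_mul, mul_one]
  exact div_self h2.ne'

theorem Zt_near {r : ℝ} (h0 : 0 ≤ r) (h1 : r ≤ 1 / 24) (th : A → ℝ)
    (hth : ∀ a b, |th a - th b| ≤ 1) (a : A) : |Zt r th a - 1| ≤ 12 * r := by
  have h2 := Tilt_card (A := A)
  have h3 : Zt r th a = (1 - r) * (1 / Zm r th a) +
      r / Fintype.card A * ∑ b, Real.exp (th b - th a) / Zm r th b := by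
    have h4 := Tilt_sum r a fun b => Real.exp (th b - th a) / Zm r th b
    rw [sub_self, Real.exp_zero] at h4
    rw [← h4, Zt]
    refine sum_congr rfl fun b _ => ?_
    rw [kt, Tilt_symm, mul_div_assoc]
  have h5 : r / Fintype.card A * ∑ b, Real.exp (th b - th a) / Zm r th b ≤ r * 4 := by
    refine Tilt_avg h0 fun b => ?_
    have h6 := Tilt_Zm_ge h0 th b
    have h7 := Tilt_exp_le (hth b a)
    rw [div_le_iff₀ (Zm_pos h0 h1 th b)]
    linarith
  have h8 : 0 ≤ r / Fintype.card A * ∑ b, Real.exp (th b - th a) / Zm r th b :=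
    mul_nonneg (by positivity) (sum_nonneg fun b _ =>
      div_nonneg (Real.exp_pos _).le (Zm_pos h0 h1 th b).le)
  have h9 := Zm_pos h0 h1 th a
  have h10 : (1 - r) * (1 / Zm r th a) ≤ 1 := by
    rw [mul_one_div, div_le_one h9]
    exact Tilt_Zm_ge h0 th a
  have h11 : 1 - 3 * r ≤ (1 - r) * (1 / Zm r th a) := by
    have h12 := Tilt_Zm_le h0 th hth a
    rw [mul_one_div, le_div_iff₀ h9]
    nlinarith [mul_le_mul_of_nonneg_left h12 (show 0 ≤ 1 - 3 * r by linarith), sq_nonneg r]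
  rw [h3, abs_le]
  constructor <;> linarith

end Pool.Agent.P.MP_a54059_lc.PT
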